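import Mathlib

/-! Binomial weights and the lazy walk in the group algebra. -/

open Finset

namespace Pool.Agent.Lib.MP_cd2b7c_an

/-- Binomial weight. -/
noncomputable def wt (k m : ℕ) : ℝ := (k.choose m : ℝ) / 2 ^ k

theorem wt_nonneg (k m : ℕ) : 0 ≤ wt k m := by unfold wt; positivity

theorem sum_wt (k : ℕ) : ∑ m ∈ range (k + 1), wt k m = 1 := by
  unfold wt
  rw [← sum_div, ← Nat.cast_sum, Nat.sum_range_choose]
  push_cast
  exact div_self (by positivity)

theorem central_sq (n : ℕ) : (n.centralBinom : ℝ) ^ 2 * (2 * n + 1) ≤ 16 ^ n := by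
  induction n with
  | zero => simp
  | succ n ih =>
    have h : ((n : ℝ) + 1) * (n + 1).centralBinom = 2 * (2 * n + 1) * n.centralBinom := by
      exact_mod_cast Nat.succ_mul_centralBinom_succ n
    have hn : (0 : ℝ) ≤ n := n.cast_nonneg
    have h0 : (0 : ℝ) < ((n : ℝ) + 1) ^ 2 := by positivity
    refine le_of_mul_le_mul_left ?_ h0
    push_cast
    have e : ((n : ℝ) + 1) ^ 2 * (((n + 1).centralBinom : ℝ) ^ 2 * (2 * (n + 1) + 1)) =
        (4 * (2 * n + 1) * (2 * n + 3)) * ((n.centralBinom : ℝ) ^ 2 * (2 * n + 1)) := by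
      have : ((n : ℝ) + 1) ^ 2 * (((n + 1).centralBinom : ℝ) ^ 2 * (2 * (n + 1) + 1)) =
        (((n : ℝ) + 1) * (n + 1).centralBinom) ^ 2 * (2 * n + 3) := by ring
      rw [this, h]; ring
    rw [e]
    calc _ ≤ (4 * (2 * (n : ℝ) + 1) * (2 * n + 3)) * 16 ^ n := by gcongr
      _ ≤ (16 * ((n : ℝ) + 1) ^ 2) * 16 ^ n :=
        mul_le_mul_of_nonneg_right (by nlinarith) (by positivity)
      _ = _ := by ring

theorem wt_sq_le (n m : ℕ) : wt (2 * n) m ^ 2 ≤ 1 / (2 * n + 1) := by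
  have h1 : ((2 * n).choose m : ℝ) ≤ n.centralBinom := by
    exact_mod_cast Nat.choose_le_centralBinom m n
  have h2 := central_sq n
  unfold wt
  rw [div_pow, div_le_div_iff₀ (by positivity) (by positivity), one_mul, ← pow_mul,
    show (2 : ℝ) ^ (2 * n * 2) = 16 ^ n by rw [show 2 * n * 2 = 4 * n by ring, pow_mul]; norm_num]
  refine le_trans ?_ h2
  gcongr

theorem sum_wt_succ (k : ℕ) (g : ℕ → ℝ) : ∑ m ∈ range (k + 2), wt (k + 1) m * g m =
    (∑ m ∈ range (k + 1), wt k m * g m + ∑ m ∈ range (k + 1), wt k m * g (m + 1)) / 2 := by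
  have h := sum_choose_succ_mul (R := ℝ) (fun i _ => g i) k
  have e : ∀ (l N : ℕ) (f : ℕ → ℝ), ∑ m ∈ range N, wt l m * f m =
      (∑ m ∈ range N, (l.choose m : ℝ) * f m) / 2 ^ l := fun l N f => by
    rw [sum_div]; exact sum_congr rfl fun m _ => by unfold wt; ring
  rw [e, e, e k _ (fun m => g (m + 1)), h]
  field_simp
  ring

/-- Weight of a residue class. -/
noncomputable def res (k d : ℕ) (r : ℤ) : ℝ :=
  ∑ m ∈ range (k + 1), wt k m * if (d : ℤ) ∣ (m : ℤ) - r then 1 else 0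

theorem res_nonneg (k d : ℕ) (r : ℤ) : 0 ≤ res k d r :=
  sum_nonneg fun m _ => mul_nonneg (wt_nonneg _ _) (by split_ifs <;> norm_num)

theorem res_le {L k d : ℕ} (hk : L ≤ k) (hd : d = 0 ∨ L < d) {B : ℝ} (hB : ∀ m, wt L m ≤ B)
    (r : ℤ) : res k d r ≤ B := by
  induction k, hk using Nat.le_induction generalizing r with
  | base =>
    have B0 : 0 ≤ B := (wt_nonneg _ _).trans (hB 0)
    unfold res
    by_cases h : ∃ m ∈ range (L + 1), (d : ℤ) ∣ (m : ℤ) - r
    · obtain ⟨m, hm, h⟩ := h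
      rw [sum_eq_single m]
      · rw [if_pos h, mul_one]; exact hB m
      · intro m' hm' ne
        rw [if_neg, mul_zero]
        intro h'
        have h3 := dvd_sub h' h
        rw [sub_sub_sub_cancel_right] at h3
        have h4 := mem_range.1 hm
        have h5 := mem_range.1 hm'
        rcases hd with rfl | hd
        · simp only [Nat.cast_zero, zero_dvd_iff] at h3; omega
        · have := Int.eq_zero_of_abs_lt_dvd h3 (by rw [abs_lt]; constructor <;> omega)
          omega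
      · exact fun h => absurd hm h
    · rw [sum_eq_zero fun m hm => by rw [if_neg fun h' => h ⟨m, hm, h'⟩, mul_zero]]
      exact B0
  | succ k _ ih =>
    have h1 := ih r
    have h2 := ih (r - 1)
    unfold res at h1 h2 ⊢
    rw [sum_wt_succ]
    have e : ∀ m : ℕ, ((m + 1 : ℕ) : ℤ) - r = (m : ℤ) - (r - 1) := fun m => by push_cast; ring
    simp only [e]
    linarith

/-- Product weight of a multi-index. -/
noncomputable def pw {ι : Type} [Fintype ι] (k : ℕ) (m : ι → ℕ) : ℝ := ∏ j, wt k (m j)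

/-- The multi-indices. -/
def box (ι : Type) [Fintype ι] [DecidableEq ι] (k : ℕ) : Finset (ι → ℕ) :=
  Fintype.piFinset fun _ => range (k + 1)

theorem pw_nonneg {ι : Type} [Fintype ι] (k : ℕ) (m : ι → ℕ) : 0 ≤ pw k m :=
  prod_nonneg fun _ _ => wt_nonneg _ _

theorem sum_pw (ι : Type) [Fintype ι] [DecidableEq ι] (k : ℕ) : ∑ m ∈ box ι k, pw k m = 1 := by
  unfold box pw
  rw [← prod_univ_sum]
  simp [sum_wt]

theorem pair_dvd_le {ι : Type} [Fintype ι] [DecidableEq ι] {L k d : ℕ} (hk : L ≤ k)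
    (hd : d = 0 ∨ L < d) {B : ℝ} (hB : ∀ m, wt L m ≤ B) (m' : ι → ℕ) :
    ∑ m ∈ box ι k, pw k m * (if ∀ j, (d : ℤ) ∣ (m j : ℤ) - m' j then 1 else 0) ≤
      B ^ Fintype.card ι := by
  have e : ∀ m : ι → ℕ, pw k m * (if ∀ j, (d : ℤ) ∣ (m j : ℤ) - m' j then 1 else 0) =
      ∏ j, (wt k (m j) * if (d : ℤ) ∣ (m j : ℤ) - m' j then 1 else 0) := fun m => by
    rw [prod_mul_distrib, prod_ite_zero]
    simp [pw]
  simp only [e]
  unfold box
  rw [← prod_univ_sum (fun _ : ι => range (k + 1))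
    (fun j (a : ℕ) => wt k a * if (d : ℤ) ∣ (a : ℤ) - m' j then 1 else 0), ← card_univ,
    ← prod_const]
  exact prod_le_prod (fun j _ => res_nonneg k d _) fun j _ => res_le hk hd hB _

/-- The greatest common divisor of the increments. -/
noncomputable def gd {ι : Type} [Fintype ι] (m m' : ι → ℕ) : ℕ :=
  (univ.gcd fun j => (m j : ℤ) - m' j).natAbs

theorem gd_dvd {ι : Type} [Fintype ι] (m m' : ι → ℕ) (j : ι) :
    (gd m m' : ℤ) ∣ (m j : ℤ) - m' j :=
  Int.natAbs_dvd.2 (gcd_dvd (f := fun j => (m j : ℤ) - m' j) (mem_univ j))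

theorem gd_bezout {ι : Type} [Fintype ι] (m m' : ι → ℕ) :
    ∃ t : ι → ℤ, (gd m m' : ℤ) = ∑ j, ((m j : ℤ) - m' j) * t j := by
  obtain ⟨t, ht⟩ := Finset.gcd_eq_sum_mul univ fun j => (m j : ℤ) - m' j
  unfold gd
  rcases Int.natAbs_eq (univ.gcd fun j => (m j : ℤ) - m' j) with h | h
  · exact ⟨t, by rw [← h, ht]⟩
  · refine ⟨fun j => -t j, ?_⟩
    simp only [mul_neg, sum_neg_distrib]
    rw [← ht]
    omega

theorem gd_le {ι : Type} [Fintype ι] [DecidableEq ι] {k : ℕ} {m m' : ι → ℕ} (hm : m ∈ box ι k)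
    (hm' : m' ∈ box ι k) : gd m m' ≤ k := by
  by_contra h
  have h1 : ∀ j, (m j : ℤ) - m' j = 0 := fun j => by
    have h2 := mem_range.1 (Fintype.mem_piFinset.1 hm j)
    have h3 := mem_range.1 (Fintype.mem_piFinset.1 hm' j)
    exact Int.eq_zero_of_abs_lt_dvd (gd_dvd m m' j) (by rw [abs_lt]; constructor <;> omega)
  obtain ⟨t, ht⟩ := gd_bezout m m'
  simp only [h1, zero_mul, sum_const_zero] at ht
  omega

theorem bad_le {ι : Type} [Fintype ι] [DecidableEq ι] {L k : ℕ} (hk : L ≤ k)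
    {B : ℝ} (hB : ∀ m, wt L m ≤ B) :
    ∑ m' ∈ box ι k, ∑ m ∈ box ι k, pw k m' * (pw k m *
      if gd m m' = 0 ∨ L < gd m m' then 1 else 0) ≤ (k + 1) * B ^ Fintype.card ι := by
  have B0 : 0 ≤ B := (wt_nonneg _ _).trans (hB 0)
  have h1 : ∀ m' ∈ box ι k, ∑ m ∈ box ι k, pw k m *
      (if gd m m' = 0 ∨ L < gd m m' then 1 else 0) ≤ (k + 1) * B ^ Fintype.card ι := by
    intro m' hm'
    set S := (range (k + 1)).filter fun d => d = 0 ∨ L < d
    calc _ ≤ ∑ m ∈ box ι k, ∑ d ∈ S,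
          pw k m * (if ∀ j, (d : ℤ) ∣ (m j : ℤ) - m' j then 1 else 0) := by
          refine sum_le_sum fun m hm => ?_
          have p0 := pw_nonneg k m
          have nn : ∀ d ∈ S, 0 ≤ pw k m * (if ∀ j, (d : ℤ) ∣ (m j : ℤ) - m' j then 1 else 0) :=
            fun d _ => mul_nonneg p0 (by split_ifs <;> norm_num)
          split_ifs with h
          · refine le_trans (le_of_eq ?_) (single_le_sum nn (mem_filter.2
              ⟨mem_range.2 (Nat.lt_succ_of_le (gd_le hm hm')), h⟩))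
            rw [if_pos (gd_dvd m m')]
          · rw [mul_zero]; exact sum_nonneg nn
      _ ≤ ∑ d ∈ S, B ^ Fintype.card ι := by
          rw [sum_comm]
          exact sum_le_sum fun d hd => pair_dvd_le hk (mem_filter.1 hd).2 hB m'
      _ ≤ _ := by
          rw [sum_const, nsmul_eq_mul]
          gcongr
          have := (card_filter_le (range (k + 1)) fun d => d = 0 ∨ L < d)
          rw [card_range] at this
          exact_mod_cast this
  calc _ ≤ ∑ m' ∈ box ι k, pw k m' * ((k + 1) * B ^ Fintype.card ι) := by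
        refine sum_le_sum fun m' hm' => ?_
        rw [← mul_sum]
        exact mul_le_mul_of_nonneg_left (h1 m' hm') (pw_nonneg _ _)
    _ = _ := by rw [← sum_mul, sum_pw, one_mul]

variable {G : Type*} [AddCommGroup G]

/-- The point mass at `b`. -/
noncomputable def dl (b : G) : AddMonoidAlgebra ℂ G := AddMonoidAlgebra.single b 1

theorem dl_add (a b : G) : dl (a + b) = dl a * dl b := by
  simp [dl, AddMonoidAlgebra.single_mul_single]

theorem dl_zero : dl (0 : G) = 1 := rfl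

theorem dl_nsmul (n : ℕ) (b : G) : dl (n • b) = dl b ^ n := by
  simp [dl, AddMonoidAlgebra.single_pow]

theorem dl_sum {ι : Type} (s : Finset ι) (b : ι → G) : dl (∑ j ∈ s, b j) = ∏ j ∈ s, dl (b j) := by
  classical
  induction s using Finset.induction_on with
  | empty => simp [dl_zero]
  | insert a s h ih => rw [sum_insert h, prod_insert h, dl_add, ih]

/-- One lazy step. -/
noncomputable def lz (b : G) : AddMonoidAlgebra ℂ G := (2⁻¹ : ℂ) • (dl b + 1)

/-- The product of the lazy steps. -/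
noncomputable def walk {ι : Type} [Fintype ι] (b : ι → G) : AddMonoidAlgebra ℂ G := ∏ j, lz (b j)

theorem lz_pow (b : G) (k : ℕ) :
    lz b ^ k = ∑ m ∈ range (k + 1), (wt k m : ℂ) • dl (m • b) := by
  unfold lz
  rw [smul_pow, add_pow, smul_sum]
  refine sum_congr rfl fun m _ => ?_
  rw [one_pow, mul_one, dl_nsmul, mul_comm, ← nsmul_eq_mul, ← Nat.cast_smul_eq_nsmul ℂ, smul_smul]
  congr 1
  unfold wt
  push_cast
  rw [inv_pow, div_eq_inv_mul]

theorem walk_pow {ι : Type} [Fintype ι] [DecidableEq ι] (b : ι → G) (k : ℕ) :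
    walk b ^ k = ∑ m ∈ box ι k, (pw k m : ℂ) • dl (∑ j, m j • b j) := by
  unfold walk box
  rw [← prod_pow]
  simp only [lz_pow]
  rw [prod_univ_sum]
  refine sum_congr rfl fun m _ => ?_
  rw [prod_smul, dl_sum]
  unfold pw
  push_cast
  rfl

theorem walk_sum {ι κ : Type} [Fintype ι] [Fintype κ] (a : ι → G) (c : κ → G) :
    walk (Sum.elim a c) = walk a * walk c := by
  unfold walk
  rw [Fintype.prod_sum_type]
  rfl

end Pool.Agent.Lib.MP_cd2b7c_an
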