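import Pool.Agent.Lib.MP_cd2b7c_an.Rep

/-! A discontinuous invariant functional when no finitely generated subgroup is dense. -/

open Finset MeasureTheory
open scoped ENNReal

namespace Pool.Agent.Lib.MP_cd2b7c_an

variable {G : Type*} [AddCommGroup G] [TopologicalSpace G] [IsTopologicalAddGroup G]
  [CompactSpace G] [SecondCountableTopology G] [MeasurableSpace G] [BorelSpace G]
  (μ : Measure G) [IsProbabilityMeasure μ] [μ.IsAddLeftInvariant]

theorem swap_cont {F : G → G → ℝ} (hF : Continuous F.uncurry) :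
    ∫ x, ∫ y, F x y ∂μ ∂μ = ∫ y, ∫ x, F x y ∂μ ∂μ :=
  integral_integral_swap (hF.integrable_of_hasCompactSupport (HasCompactSupport.of_compactSpace _))

/-- Correlation of two continuous functions. -/
noncomputable def cv (φ χ : C(G, ℝ)) : C(G, ℝ) :=
  ⟨fun b => ∫ x, φ x * χ (x + b) ∂μ, by
    simpa using continuous_parametric_integral_of_continuous (μ := μ)
      (f := fun b x => φ x * χ (x + b)) (by fun_prop) isCompact_univ⟩

theorem cv_apply (φ χ : C(G, ℝ)) (b : G) : cv μ φ χ b = ∫ x, φ x * χ (x + b) ∂μ := rfl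

theorem norm_cv_le (φ : C(G, ℝ)) : ‖cv μ φ φ‖ ≤ ‖φ‖ ^ 2 := by
  refine (ContinuousMap.norm_le _ (by positivity)).2 fun b => ?_
  rw [cv_apply]
  simpa using norm_integral_le_of_norm_le_const (μ := μ) (C := ‖φ‖ ^ 2)
    (f := fun x => φ x * φ (x + b)) (ae_of_all _ fun x => by
      rw [norm_mul, sq]
      exact mul_le_mul (φ.norm_coe_le_norm _) (φ.norm_coe_le_norm _) (norm_nonneg _)
        (norm_nonneg _))

theorem cv_pair (φ χ : C(G, ℝ)) :
    ∫ b, cv μ φ φ b * cv μ χ χ b ∂μ = ∫ x, cv μ χ φ x ^ 2 ∂μ := by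
  have e1 : ∀ y, ∫ x, φ (y + x) * cv μ χ φ x ∂μ = ∫ b, χ (y + b) * cv μ φ φ b ∂μ := fun y => by
    simp only [cv_apply μ χ φ, ← integral_const_mul]
    rw [swap_cont μ (F := fun x z => φ (y + x) * (χ z * φ (z + x))) (by fun_prop),
      ← integral_add_left_eq_self (μ := μ)
        (fun z => ∫ x, φ (y + x) * (χ z * φ (z + x)) ∂μ) y]
    refine integral_congr_ae (ae_of_all _ fun b => ?_)
    simp only [cv_apply]
    rw [← integral_add_left_eq_self (μ := μ) (fun x => φ x * φ (x + b)) y, ← integral_const_mul]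
    refine integral_congr_ae (ae_of_all _ fun x => ?_)
    simp only [add_right_comm y b x]
    ring
  calc _ = ∫ b, ∫ y, χ y * (χ (y + b) * cv μ φ φ b) ∂μ ∂μ := by
        refine integral_congr_ae (ae_of_all _ fun b => ?_)
        simp only [cv_apply μ χ χ, ← integral_const_mul]
        exact integral_congr_ae (ae_of_all _ fun y => by ring)
    _ = ∫ y, ∫ x, χ y * (φ (y + x) * cv μ χ φ x) ∂μ ∂μ := by
        rw [swap_cont μ (F := fun b y => χ y * (χ (y + b) * cv μ φ φ b)) (by fun_prop)]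
        simp only [integral_const_mul, e1]
    _ = _ := by
        rw [swap_cont μ (F := fun y x => χ y * (φ (y + x) * cv μ χ φ x)) (by fun_prop)]
        refine integral_congr_ae (ae_of_all _ fun x => ?_)
        simp only [← mul_assoc, integral_mul_const]
        rw [sq]
        rfl

theorem sq_pos_int [μ.IsOpenPosMeasure] {F : C(G, ℝ)} (h : F ≠ 0) : 0 < ∫ x, F x ^ 2 ∂μ := by
  obtain ⟨x, hx⟩ := DFunLike.ne_iff.1 h
  exact Continuous.integral_pos_of_hasCompactSupport_nonneg_nonzero (x := x) (by fun_prop)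
    (HasCompactSupport.of_compactSpace _) (fun x => sq_nonneg _) (pow_ne_zero 2 hx)

/-- Integration against a continuous function. -/
noncomputable def rpair (ψ : C(G, ℝ)) : C(G, ℝ) →L[ℝ] ℝ :=
  LinearMap.mkContinuous
    { toFun := fun F => ∫ x, F x * ψ x ∂μ
      map_add' := fun F F' => by
        simp only [ContinuousMap.add_apply, add_mul]
        exact integral_add ((F * ψ).continuous.integrable_of_hasCompactSupport
          (HasCompactSupport.of_compactSpace _)) ((F' * ψ).continuous.integrable_of_hasCompactSupport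
          (HasCompactSupport.of_compactSpace _))
      map_smul' := fun c F => by
        simp only [ContinuousMap.smul_apply, smul_eq_mul, mul_assoc, RingHom.id_apply]
        exact integral_const_mul _ _ } ‖ψ‖ fun F => by
    simpa using norm_integral_le_of_norm_le_const (μ := μ) (C := ‖ψ‖ * ‖F‖)
      (f := fun x => F x * ψ x) (ae_of_all _ fun x => by
        rw [norm_mul, mul_comm]
        exact mul_le_mul (ψ.norm_coe_le_norm _) (F.norm_coe_le_norm _) (norm_nonneg _)
          (norm_nonneg _))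

theorem rpair_apply (ψ F : C(G, ℝ)) : rpair μ ψ F = ∫ x, F x * ψ x ∂μ := rfl

theorem exists_posdef [μ.IsOpenPosMeasure] : ∃ K : C(G, ℝ), ∀ χ : C(G, ℝ), χ ≠ 0 →
    0 < ∫ b, K b * cv μ χ χ b ∂μ := by
  obtain ⟨φ, hφ⟩ := TopologicalSpace.exists_dense_seq C(G, ℝ)
  let c : ℕ → ℝ := fun n => 2⁻¹ ^ n / (1 + ‖φ n‖ ^ 2)
  have c0 : ∀ n, 0 < c n := fun n => by positivity
  have hs : Summable fun n => c n • cv μ (φ n) (φ n) := by
    refine Summable.of_norm_bounded (summable_geometric_of_lt_one (r := 2⁻¹) (by norm_num)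
      (by norm_num)) fun n => ?_
    rw [norm_smul, Real.norm_of_nonneg (c0 n).le, div_mul_eq_mul_div, div_le_iff₀ (by positivity)]
    gcongr
    linarith [norm_cv_le μ (φ n)]
  refine ⟨∑' n, c n • cv μ (φ n) (φ n), fun χ hχ => ?_⟩
  rw [← rpair_apply, (rpair μ _).map_tsum hs]
  have e : ∀ n, rpair μ (cv μ χ χ) (c n • cv μ (φ n) (φ n)) =
      c n * ∫ x, cv μ χ (φ n) x ^ 2 ∂μ := fun n => by
    rw [map_smul, rpair_apply, cv_pair, smul_eq_mul]
  have h1 : rpair μ χ χ ≠ 0 := by
    rw [rpair_apply]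
    simpa only [sq] using (sq_pos_int μ hχ).ne'
  obtain ⟨n, hn⟩ := hφ.exists_mem_open (isOpen_ne_fun (rpair μ χ).continuous continuous_const)
    ⟨χ, h1⟩
  refine ((rpair μ _).summable hs).tsum_pos (fun n => ?_) n ?_
  · rw [e]; exact mul_nonneg (c0 n).le (integral_nonneg fun x => sq_nonneg _)
  · rw [e]
    refine mul_pos (c0 n) (sq_pos_int μ fun h => hn ?_)
    have := DFunLike.congr_fun h 0
    rw [cv_apply] at this
    simpa [rpair_apply, mul_comm] using this

theorem exists_inv [T2Space G] {S : Set G} (hS : ¬ Dense (AddSubgroup.closure S : Set G)) :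
    ∃ χ : C(G, ℝ), χ ≠ 0 ∧ (∀ a ∈ S, ∀ x, χ (a + x) = χ x) ∧ ∫ x, χ x ∂μ = 0 := by
  obtain ⟨x0, hx⟩ := not_forall.1 hS
  set H := (AddSubgroup.closure S).topologicalClosure
  have cH : IsClosed (H : Set G) := AddSubgroup.isClosed_topologicalClosure _
  have ne : ((0 : G) : G ⧸ H) ≠ (x0 : G ⧸ H) := fun h => hx (by
    have := QuotientAddGroup.eq.1 h
    rw [neg_zero, zero_add] at this
    exact this)
  obtain ⟨f, f0, f1, -⟩ := exists_continuous_zero_one_of_isClosed
    (isClosed_singleton (x := ((0 : G) : G ⧸ H))) (isClosed_singleton (x := (x0 : G ⧸ H)))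
    (Set.disjoint_singleton.2 ne)
  let g : C(G, ℝ) := f.comp ⟨QuotientAddGroup.mk, QuotientAddGroup.continuous_mk⟩
  refine ⟨g - ContinuousMap.const G (∫ x, g x ∂μ), fun h => ?_, fun a ha x => ?_, ?_⟩
  · have h0 := DFunLike.congr_fun h 0
    have h1 := DFunLike.congr_fun h x0
    have g0 : g 0 = 0 := f0 rfl
    have g1 : g x0 = 1 := f1 rfl
    simp only [ContinuousMap.sub_apply, ContinuousMap.const_apply, ContinuousMap.zero_apply] at h0 h1
    linarith
  · have : ((a + x : G) : G ⧸ H) = (x : G ⧸ H) := QuotientAddGroup.eq.2 (by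
      simpa using H.neg_mem (AddSubgroup.le_topologicalClosure _ (AddSubgroup.subset_closure ha)))
    simp only [ContinuousMap.sub_apply, ContinuousMap.const_apply, g, ContinuousMap.comp_apply,
      ContinuousMap.coe_mk, this]
  · simp only [ContinuousMap.sub_apply, ContinuousMap.const_apply]
    rw [integral_sub (g.continuous.integrable_of_hasCompactSupport
      (HasCompactSupport.of_compactSpace _)) (integrable_const _)]
    simp

variable (q : ℝ≥0∞) [Fact (1 ≤ q)]

/-- Integration of an element of the Lebesgue space against a continuous function. -/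
noncomputable def cpair (ψ : C(G, ℝ)) : Lp ℂ q μ →ₗ[ℂ] ℂ where
  toFun := fun f => ∫ x, f x * ψ x ∂μ
  map_add' := fun f g => by
    have i : ∀ h : Lp ℂ q μ, Integrable (fun x => h x * ψ x) μ := fun h =>
      ((Lp.memLp h).integrable Fact.out).mul_bdd (c := ‖ψ‖)
        (Complex.continuous_ofReal.comp ψ.continuous).aestronglyMeasurable
        (ae_of_all _ fun x => by simpa using ψ.norm_coe_le_norm x)
    rw [← integral_add (i f) (i g)]
    exact integral_congr_ae ((Lp.coeFn_add f g).mono fun x e => by simp only [e, Pi.add_apply, add_mul])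
  map_smul' := fun c f => by
    rw [RingHom.id_apply, smul_eq_mul, ← integral_const_mul]
    exact integral_congr_ae ((Lp.coeFn_smul c f).mono fun x e => by
      simp only [e, Pi.smul_apply, smul_eq_mul, mul_assoc])

theorem cpair_apply (ψ : C(G, ℝ)) (f : Lp ℂ q μ) : cpair μ q ψ f = ∫ x, f x * ψ x ∂μ := rfl

theorem cont_inv (φ : Lp ℂ q μ →ₗ[ℂ] ℂ) (hφ : ∀ a f, φ (tr μ q a f) = φ f) (hc : Continuous φ)
    (h1 : φ (Lp.const q μ 1) = 0) (F : C(G, ℂ)) : φ (ContinuousMap.toLp q μ ℂ F) = 0 := by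
  let Φ : C(G, ℂ) →L[ℂ] ℂ := (⟨φ, hc⟩ : Lp ℂ q μ →L[ℂ] ℂ).comp (ContinuousMap.toLp q μ ℂ)
  let T : C(G, C(G, ℂ)) := (F.comp ⟨fun z : G × G => z.1 + z.2, continuous_add⟩).curry
  have iT : Integrable T μ :=
    T.continuous.integrable_of_hasCompactSupport (HasCompactSupport.of_compactSpace _)
  have e1 : ∀ b, Φ (T b) = Φ F := fun b => by
    change φ (ContinuousMap.toLp q μ ℂ (T b)) = φ (ContinuousMap.toLp q μ ℂ F)
    rw [← hφ b (ContinuousMap.toLp q μ ℂ F)]
    exact congrArg φ (Lp.ext ((ContinuousMap.coeFn_toLp μ (T b)).trans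
      (tr_ae' μ q b (ContinuousMap.coeFn_toLp μ F)).symm))
  have e2 : ∫ b, T b ∂μ = (∫ x, F x ∂μ) • (1 : C(G, ℂ)) := by
    ext x
    have := (ContinuousMap.evalCLM ℂ x).integral_comp_comm iT
    simp only [ContinuousMap.evalCLM_apply] at this
    rw [← this]
    simpa [T] using integral_add_right_eq_self (μ := μ) (fun y => F y) x
  have e3 := Φ.integral_comp_comm iT
  have e4 : Φ 1 = 0 := by
    have : ContinuousMap.toLp q μ ℂ (1 : C(G, ℂ)) = Lp.const q μ 1 :=
      Lp.ext ((ContinuousMap.coeFn_toLp μ _).trans (Lp.coeFn_const q μ (1 : ℂ)).symm)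
    change φ (ContinuousMap.toLp q μ ℂ 1) = 0
    rw [this, h1]
  rw [e2, map_smul, e4, smul_zero] at e3
  change Φ F = 0
  simpa [e1] using e3

theorem exists_discont [T2Space G] [μ.IsOpenPosMeasure]
    (h : ∀ S : Finset G, ¬ Dense (AddSubgroup.closure (S : Set G) : Set G)) :
    ∃ φ : Lp ℂ q μ →ₗ[ℂ] ℂ, (∀ a f, φ (tr μ q a f) = φ f) ∧ ¬ Continuous φ := by
  classical
  obtain ⟨K, hK⟩ := exists_posdef μ
  let F : C(G, ℂ) := ⟨fun x => K x, Complex.continuous_ofReal.comp K.continuous⟩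
  let D : Submodule ℂ (Lp ℂ q μ) :=
    Submodule.span ℂ (insert (Lp.const q μ 1) {u | ∃ a g, u = tr μ q a g - g})
  have hD : ∀ u ∈ D, ∃ S : Finset G, ∀ ψ : C(G, ℝ), (∀ a ∈ S, ∀ x, ψ (a + x) = ψ x) →
      ∫ x, ψ x ∂μ = 0 → cpair μ q ψ u = 0 := by
    intro u hu
    induction hu using Submodule.span_induction with
    | mem u hu =>
      rcases hu with rfl | ⟨a, g, rfl⟩
      · refine ⟨∅, fun ψ _ h0 => ?_⟩
        have h2 : (fun x => Lp.const q μ (1 : ℂ) x * ψ x) =ᵐ[μ] fun x => (ψ x : ℂ) :=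
          (Lp.coeFn_const q μ (1 : ℂ)).mono fun x e => by simp only [e, Function.const, one_mul]
        rw [cpair_apply, integral_congr_ae h2, integral_complex_ofReal, h0, Complex.ofReal_zero]
      · refine ⟨{a}, fun ψ hψ _ => ?_⟩
        rw [map_sub, sub_eq_zero, cpair_apply, cpair_apply,
          ← integral_add_left_eq_self (μ := μ) (fun x => g x * ψ x) a]
        exact integral_congr_ae ((tr_ae μ q a g).mono fun x e => by
          simp only [e, hψ a (mem_singleton_self a)])
    | zero => exact ⟨∅, fun ψ _ _ => map_zero _⟩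
    | add u v _ _ hu hv =>
      obtain ⟨S, hS⟩ := hu
      obtain ⟨S', hS'⟩ := hv
      exact ⟨S ∪ S', fun ψ hψ h0 => by
        rw [map_add, hS ψ (fun a ha => hψ a (mem_union_left _ ha)) h0,
          hS' ψ (fun a ha => hψ a (mem_union_right _ ha)) h0, add_zero]⟩
    | smul c u _ hu =>
      obtain ⟨S, hS⟩ := hu
      exact ⟨S, fun ψ hψ h0 => by rw [map_smul, hS ψ hψ h0, smul_zero]⟩
  have nF : ContinuousMap.toLp q μ ℂ F ∉ D := fun hF => by
    obtain ⟨S, hS⟩ := hD _ hF
    obtain ⟨χ, χ0, χ1, χ2⟩ := exists_inv μ (h S)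
    have h1 := hS (cv μ χ χ) (fun a ha x => by
      simp only [cv_apply, add_left_comm _ a x, χ1 a ha]) (by
      simp only [cv_apply]
      rw [swap_cont μ (F := fun b x => χ x * χ (x + b)) (by fun_prop)]
      simp only [integral_const_mul, fun x => integral_add_left_eq_self (μ := μ) (fun y => χ y) x,
        χ2, mul_zero, integral_zero])
    have h2 : (fun x => ContinuousMap.toLp q μ ℂ F x * cv μ χ χ x) =ᵐ[μ]
        fun x => ((K x * cv μ χ χ x : ℝ) : ℂ) :=
      (ContinuousMap.coeFn_toLp (p := q) (𝕜 := ℂ) μ F).mono fun x e => by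
        simp only [e, Complex.ofReal_mul]
        rfl
    rw [cpair_apply, integral_congr_ae h2, integral_complex_ofReal, Complex.ofReal_eq_zero] at h1
    exact (hK χ χ0).ne' h1
  obtain ⟨φ, h1, h2⟩ := Submodule.exists_le_ker_of_notMem nF
  have inv : ∀ a f, φ (tr μ q a f) = φ f := fun a f => by
    rw [← sub_eq_zero, ← map_sub]
    exact h2 (Submodule.subset_span (Or.inr ⟨a, f, rfl⟩))
  exact ⟨φ, inv, fun hc => h1 (cont_inv μ q φ inv hc (h2 (Submodule.subset_span (Or.inl rfl))) F)⟩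

end Pool.Agent.Lib.MP_cd2b7c_an
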