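import Pool.Agent.Lib.MP_cd2b7c_an.Main
import Pool.Agent.Lib.MP_cd2b7c_an.Conv

/-! The characterisation, for an arbitrary Haar measure. -/

open MeasureTheory
open scoped ENNReal

namespace Pool.Agent.Lib.MP_cd2b7c_an

variable {G : Type*} [AddCommGroup G] [MeasurableSpace G] (q : ℝ≥0∞) [Fact (1 ≤ q)]

/-- Automatic continuity of invariant functionals. -/
def Auto (μ : Measure G) : Prop :=
  ∀ φ : Lp ℂ q μ →ₗ[ℂ] ℂ, (∀ (a : G) (f g : Lp ℂ q μ),
    (g : G → ℂ) =ᵐ[μ] (fun x => (f : G → ℂ) (x + a)) → φ g = φ f) → Continuous φ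

theorem Auto.transfer [MeasurableAdd G] {μ ν : Measure G} [μ.IsAddRightInvariant] {c c' : ℝ≥0∞}
    (hc : c ≠ ∞) (hc' : c' ≠ ∞) (h : μ ≤ c • ν) (h' : ν ≤ c' • μ) (hν : Auto q ν) : Auto q μ := by
  intro φ hφ
  have a1 : μ ≪ ν := Measure.absolutelyContinuous_of_le_smul h
  let e : Lp ℂ q ν →L[ℝ] Lp ℂ q μ := Lp.LpToLpOfMeasureLeSMul hc h
  let e' : Lp ℂ q μ →L[ℝ] Lp ℂ q ν := Lp.LpToLpOfMeasureLeSMul hc' h'
  have he : ∀ f, e f =ᵐ[μ] f := Lp.coeFn_LpToLpOfMeasureLeSMul hc h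
  have he' : ∀ f, e' f =ᵐ[ν] f := Lp.coeFn_LpToLpOfMeasureLeSMul hc' h'
  let ψ : Lp ℂ q ν →ₗ[ℂ] ℂ :=
    { toFun := fun f => φ (e f)
      map_add' := fun f g => by rw [map_add, map_add]
      map_smul' := fun z f => by
        rw [RingHom.id_apply, ← map_smul]
        congr 1
        refine Lp.ext ?_
        filter_upwards [he (z • f), a1.ae_eq (Lp.coeFn_smul z f), Lp.coeFn_smul z (e f), he f]
          with x e1 e2 e3 e4
        rw [e1, e2, e3, Pi.smul_apply, Pi.smul_apply, e4] }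
  have hψ : Continuous ψ := hν ψ fun a f g hg => hφ a (e f) (e g) <|
    ((he g).trans (a1.ae_eq hg)).trans
      ((measurePreserving_add_right μ a).quasiMeasurePreserving.ae_eq_comp (he f)).symm
  have : (φ : Lp ℂ q μ → ℂ) = fun f => ψ (e' f) := funext fun f =>
    congrArg φ (Lp.ext ((he _).trans (a1.ae_eq (he' f))).symm)
  rw [this]
  exact hψ.comp e'.continuous

variable [TopologicalSpace G] [IsTopologicalAddGroup G] [CompactSpace G] [T2Space G]
  [SecondCountableTopology G] [BorelSpace G]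

theorem auto_iff_prob (μ : Measure G) [μ.IsAddHaarMeasure] [IsProbabilityMeasure μ] (h1 : 1 < q)
    (hq : q ≠ ∞) :
    Auto q μ ↔ ∃ S : Finset G, Dense (AddSubgroup.closure (S : Set G) : Set G) := by
  have tr' : ∀ (a : G) (f : Lp ℂ q μ), tr μ q a f =ᵐ[μ] fun x => f (x + a) := fun a f => by
    simpa only [add_comm a] using tr_ae μ q a f
  constructor
  · intro h
    by_contra hn
    obtain ⟨φ, h2, h3⟩ := exists_discont μ q fun S hS => hn ⟨S, hS⟩
    refine h3 (h φ fun a f g hg => ?_)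
    rw [← h2 a f]
    exact congrArg φ (Lp.ext (hg.trans (tr' a f).symm))
  · rintro ⟨S, hS⟩ φ hφ
    let c : Option (Fin S.card) → G := fun i => i.elim 0 fun j => S.equivFin.symm j
    have hc : Gen c := gen_of_dense (hS.mono (AddSubgroup.closure_mono fun x hx =>
      ⟨some (S.equivFin ⟨x, hx⟩), by simp [c]⟩))
    have : (φ : Lp ℂ q μ → ℂ) = fun f => mean μ q f * φ (Lp.const q μ 1) :=
      funext (inv_eq_mean μ q h1 hq hc φ fun a f => hφ a f _ (tr' a f))
    rw [this]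
    exact (mean μ q).continuous.mul continuous_const

theorem auto_iff (μ : Measure G) [μ.IsAddHaarMeasure] (h1 : 1 < q) (hq : q ≠ ∞) :
    Auto q μ ↔ ∃ S : Finset G, Dense (AddSubgroup.closure (S : Set G) : Set G) := by
  have m0 : μ Set.univ ≠ 0 := isOpen_univ.measure_ne_zero μ Set.univ_nonempty
  have m1 : μ Set.univ ≠ ∞ := measure_ne_top _ _
  set ν := (μ Set.univ)⁻¹ • μ
  have : ν.IsAddHaarMeasure :=
    Measure.IsAddHaarMeasure.smul μ (ENNReal.inv_ne_zero.2 m1) (ENNReal.inv_ne_top.2 m0)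
  have : IsProbabilityMeasure ν := ⟨by simp [ν, ENNReal.inv_mul_cancel m0 m1]⟩
  have l1 : μ ≤ μ Set.univ • ν := by
    rw [smul_smul, ENNReal.mul_inv_cancel m0 m1, one_smul]
  rw [← auto_iff_prob q ν h1 hq]
  exact ⟨Auto.transfer q (ENNReal.inv_ne_top.2 m0) m1 le_rfl l1,
    Auto.transfer q m1 (ENNReal.inv_ne_top.2 m0) l1 le_rfl⟩

end Pool.Agent.Lib.MP_cd2b7c_an
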