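import Pool.Agent.Lib.MP_cd2b7c_an.Alg

/-! The mean square estimate for the lazy walk on random points. -/

open Finset MeasureTheory

namespace Pool.Agent.Lib.MP_cd2b7c_an

variable {G : Type*} [AddCommGroup G]

section Banach

variable {E : Type*} [NormedAddCommGroup E] [NormedSpace ℂ E]
  {ρ : AddMonoidAlgebra ℂ G →ₐ[ℂ] (E →L[ℂ] E)}

theorem rho_mul (x y : AddMonoidAlgebra ℂ G) (v : E) : ρ (x * y) v = ρ x (ρ y v) := by
  rw [map_mul]; rfl

theorem rho_comm (x y : AddMonoidAlgebra ℂ G) (v : E) : ρ x (ρ y v) = ρ y (ρ x v) := by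
  rw [← rho_mul, ← rho_mul, mul_comm]

theorem rho_lz (b : G) (v : E) : ρ (lz b) v = (2⁻¹ : ℂ) • (ρ (dl b) v + v) := by
  simp [lz]

theorem norm_lz_le (iso : ∀ a v, ‖ρ (dl a) v‖ = ‖v‖) (b : G) (v : E) : ‖ρ (lz b) v‖ ≤ ‖v‖ := by
  rw [rho_lz, norm_smul]
  have := norm_add_le (ρ (dl b) v) v
  rw [iso] at this
  simp only [norm_inv, Complex.norm_ofNat]
  linarith

theorem norm_prod_le (iso : ∀ a v, ‖ρ (dl a) v‖ = ‖v‖) {ι : Type} (s : Finset ι) (b : ι → G)
    (v : E) : ‖ρ (∏ j ∈ s, lz (b j)) v‖ ≤ ‖v‖ := by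
  classical
  induction s using Finset.induction_on with
  | empty => simp
  | insert a s h ih => rw [prod_insert h, rho_mul]; exact (norm_lz_le iso _ _).trans ih

theorem norm_sub_add_le (iso : ∀ a v, ‖ρ (dl a) v‖ = ‖v‖) (a b : G) (u : E) :
    ‖u - ρ (dl (a + b)) u‖ ≤ ‖u - ρ (dl a) u‖ + ‖u - ρ (dl b) u‖ := by
  rw [dl_add, rho_mul, ← iso a (u - ρ (dl b) u), map_sub]
  exact norm_sub_le_norm_sub_add_norm_sub _ _ _

theorem norm_sub_nsmul_le (iso : ∀ a v, ‖ρ (dl a) v‖ = ‖v‖) (n : ℕ) (b : G) (u : E) :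
    ‖u - ρ (dl (n • b)) u‖ ≤ n * ‖u - ρ (dl b) u‖ := by
  induction n with
  | zero => simp [dl_zero]
  | succ n ih =>
    rw [succ_nsmul]
    have := norm_sub_add_le iso (n • b) b u
    push_cast
    linarith

theorem norm_sub_sum_le (iso : ∀ a v, ‖ρ (dl a) v‖ = ‖v‖) {ι : Type} (s : Finset ι) (b : ι → G)
    (u : E) : ‖u - ρ (dl (∑ j ∈ s, b j)) u‖ ≤ ∑ j ∈ s, ‖u - ρ (dl (b j)) u‖ := by
  classical
  induction s using Finset.induction_on with
  | empty => simp [dl_zero]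
  | insert a s h ih =>
    rw [sum_insert h, sum_insert h]
    exact (norm_sub_add_le iso _ _ u).trans (by linarith)

theorem fun_walk {F : Type*} [FunLike F E ℂ] [LinearMapClass F ℂ E ℂ] (l : F)
    (hl : ∀ a v, l (ρ (dl a) v) = l v) {ι : Type} [Fintype ι] (b : ι → G) (v : E) :
    l (ρ (walk b) v) = l v := by
  classical
  unfold walk
  induction (univ : Finset ι) using Finset.induction_on with
  | empty => simp
  | insert a s h ih =>
    rw [prod_insert h, rho_mul, rho_lz, map_smul, map_add, hl, ih, smul_eq_mul]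
    ring

/-- The finite family `c` generates the group modulo multiples of `d`, for every `d`. -/
def Gen {κ : Type} [Fintype κ] (c : κ → G) : Prop :=
  ∀ d : ℕ, 1 ≤ d → ∀ b : G, ∃ (b' : G) (n : κ → ℕ), (∀ i, n i ≤ d) ∧ b = d • b' + ∑ i, n i • c i

end Banach

section Hilbert

variable {H : Type*} [NormedAddCommGroup H] [InnerProductSpace ℂ H]
  {ρ : AddMonoidAlgebra ℂ G →ₐ[ℂ] (H →L[ℂ] H)}

theorem norm_lz_sq (iso : ∀ a v, ‖ρ (dl a) v‖ = ‖v‖) (b : G) (u : H) :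
    ‖ρ (lz b) u‖ ^ 2 = ‖u‖ ^ 2 - ‖u - ρ (dl b) u‖ ^ 2 / 4 := by
  have h := parallelogram_law_with_norm ℂ (ρ (dl b) u) u
  rw [iso, norm_sub_rev] at h
  rw [rho_lz, norm_smul]
  simp only [norm_inv, Complex.norm_ofNat]
  nlinarith

theorem poincare (iso : ∀ a v, ‖ρ (dl a) v‖ = ‖v‖) {κ : Type} [Fintype κ] [Nonempty κ]
    {c : κ → G} (hc : Gen c) {d L : ℕ} (hd : 1 ≤ d) (hL : d ≤ L) {u : H}
    (hu : ∀ b : G, ρ (dl (d • b)) u = u)
    (hz : ∀ M, (∀ b : G, ‖u - ρ (dl b) u‖ ≤ M) → ‖u‖ ≤ M) :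
    ‖ρ (walk c) u‖ ≤ (1 - 1 / (8 * ((L : ℝ) * Fintype.card κ) ^ 2)) * ‖u‖ := by
  classical
  obtain ⟨i, -, hi⟩ := exists_max_image univ (fun i => ‖u - ρ (dl (c i)) u‖) univ_nonempty
  set t := ‖u - ρ (dl (c i)) u‖
  have t0 : 0 ≤ t := norm_nonneg _
  have r1 : (1 : ℝ) ≤ Fintype.card κ := by exact_mod_cast Fintype.card_pos
  have L1 : (1 : ℝ) ≤ L := by exact_mod_cast hd.trans hL
  have h1 : ‖u‖ ≤ (L * Fintype.card κ) * t := hz _ fun b => by
    obtain ⟨b', n, hn, rfl⟩ := hc d hd b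
    refine (norm_sub_add_le iso _ _ u).trans ?_
    rw [hu, sub_self, norm_zero, zero_add]
    refine (norm_sub_sum_le iso _ _ u).trans ?_
    calc _ ≤ ∑ _j : κ, (L : ℝ) * t := sum_le_sum fun j _ => (norm_sub_nsmul_le iso _ _ u).trans
          (mul_le_mul (by exact_mod_cast (hn j).trans hL) (hi j (mem_univ _)) (norm_nonneg _)
            (by positivity))
      _ = _ := by rw [sum_const, card_univ, nsmul_eq_mul]; ring
  set N : ℝ := L * Fintype.card κ
  have N1 : 1 ≤ N := by nlinarith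
  have h2 : ‖ρ (walk c) u‖ ≤ ‖ρ (lz (c i)) u‖ := by
    unfold walk
    rw [← prod_erase_mul _ _ (mem_univ i), rho_mul]
    exact norm_prod_le iso _ _ _
  refine h2.trans ?_
  have u0 := norm_nonneg u
  have g1 : 1 / (8 * N ^ 2) ≤ 1 := by
    rw [div_le_one (by positivity)]; nlinarith
  refine abs_le_of_sq_le_sq' ?_ (mul_nonneg (by linarith) u0) |>.2
  rw [norm_lz_sq iso]
  have h3 : ‖u‖ ^ 2 / N ^ 2 ≤ t ^ 2 := by
    rw [div_le_iff₀ (by positivity), ← mul_pow, mul_comm]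
    gcongr
  have h4 : ((1 - 1 / (8 * N ^ 2)) * ‖u‖) ^ 2 =
      ‖u‖ ^ 2 - ‖u‖ ^ 2 / N ^ 2 / 4 + (1 / (8 * N ^ 2) * ‖u‖) ^ 2 := by
    field_simp; ring
  rw [h4]
  nlinarith [sq_nonneg (1 / (8 * N ^ 2) * ‖u‖)]

theorem poincare_pow (iso : ∀ a v, ‖ρ (dl a) v‖ = ‖v‖) {κ : Type} [Fintype κ] [Nonempty κ]
    {c : κ → G} (hc : Gen c) {l : H →L[ℂ] ℂ} (hl : ∀ a v, l (ρ (dl a) v) = l v)
    (hz : ∀ u, l u = 0 → ∀ M, (∀ b : G, ‖u - ρ (dl b) u‖ ≤ M) → ‖u‖ ≤ M)
    {d L : ℕ} (hd : 1 ≤ d) (hL : d ≤ L) (k : ℕ) {u : H}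
    (hu : ∀ b : G, ρ (dl (d • b)) u = u) (h0 : l u = 0) :
    ‖ρ (walk c ^ k) u‖ ≤ (1 - 1 / (8 * ((L : ℝ) * Fintype.card κ) ^ 2)) ^ k * ‖u‖ := by
  have r1 : (1 : ℝ) ≤ Fintype.card κ := by exact_mod_cast Fintype.card_pos
  have L1 : (1 : ℝ) ≤ L := by exact_mod_cast hd.trans hL
  have N1 : (1 : ℝ) ≤ L * Fintype.card κ := by nlinarith
  have g1 : 1 / (8 * ((L : ℝ) * Fintype.card κ) ^ 2) ≤ 1 := by
    rw [div_le_one (by positivity)]; nlinarith
  induction k generalizing u with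
  | zero => simp
  | succ k ih =>
    rw [pow_succ, rho_mul, pow_succ, mul_assoc]
    refine (ih (fun b => by rw [rho_comm, hu]) (by rw [fun_walk l hl, h0])).trans ?_
    exact mul_le_mul_of_nonneg_left (poincare iso hc hd hL hu (hz u h0))
      (pow_nonneg (by linarith) _)

variable [CompleteSpace H] [TopologicalSpace G] [IsTopologicalAddGroup G] [CompactSpace G]
  [SecondCountableTopology G] [MeasurableSpace G] [BorelSpace G]
  {μ : Measure G} [IsProbabilityMeasure μ] [μ.IsAddLeftInvariant]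

theorem mean_square (iso : ∀ a v, ‖ρ (dl a) v‖ = ‖v‖) (ct : ∀ v, Continuous fun a => ρ (dl a) v)
    {κ : Type} [Fintype κ] [Nonempty κ]
    {c : κ → G} (hc : Gen c) {l : H →L[ℂ] ℂ} (hl : ∀ a v, l (ρ (dl a) v) = l v)
    (hz : ∀ u, l u = 0 → ∀ M, (∀ b : G, ‖u - ρ (dl b) u‖ ≤ M) → ‖u‖ ≤ M)
    (ι : Type) [Fintype ι] [DecidableEq ι] {L k : ℕ} (L1 : 1 ≤ L) (hk : L ≤ k) {B : ℝ}
    (hB : ∀ m, wt L m ≤ B) {v : H} (h0 : l v = 0) :
    ∫ a : ι → G, ‖ρ (walk (Sum.elim a c) ^ k) v‖ ^ 2 ∂(Measure.pi fun _ => μ) ≤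
      ((1 - 1 / (8 * ((L : ℝ) * Fintype.card κ) ^ 2)) ^ k + (k + 1) * B ^ Fintype.card ι) *
        ‖v‖ ^ 2 := by
  set ν : Measure (ι → G) := Measure.pi fun _ => μ
  set θ := (1 - 1 / (8 * ((L : ℝ) * Fintype.card κ) ^ 2)) ^ k
  set w := ρ (walk c ^ k) v
  have r1 : (1 : ℝ) ≤ Fintype.card κ := by exact_mod_cast Fintype.card_pos
  have L1' : (1 : ℝ) ≤ L := by exact_mod_cast L1
  have N1 : (1 : ℝ) ≤ L * Fintype.card κ := by nlinarith
  have θ0 : 0 ≤ θ := pow_nonneg (by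
    rw [sub_nonneg, div_le_one (by positivity)]; nlinarith) _
  have nw : ∀ u : H, ‖ρ (walk c ^ k) u‖ ≤ ‖u‖ := fun u => by
    clear_value w θ
    clear hk
    induction k generalizing u with
    | zero => simp
    | succ k ih => rw [pow_succ, rho_mul]; exact (ih _).trans (norm_prod_le iso _ _ _)
  let sh : (ι → ℕ) → (ι → ℕ) → (ι → G) → G := fun m m' a => ∑ j, ((m j : ℤ) - m' j) • a j
  have csh : ∀ m m', Continuous (sh m m') := fun m m' => by
    refine continuous_finsetSum _ fun j _ => ?_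
    exact (continuous_apply j).zsmul _
  have ig : ∀ m m' (u : H), Integrable (fun a => ρ (dl (sh m m' a)) u) ν := fun m m' u =>
    ((ct u).comp (csh m m')).integrable_of_hasCompactSupport (HasCompactSupport.of_compactSpace _)
  have inn : ∀ (a : G) (x y : H), inner ℂ (ρ (dl a) x) (ρ (dl a) y) = inner ℂ x y := fun a =>
    (LinearMap.norm_map_iff_inner_map_map (ρ (dl a))).1 (iso a)
  have ex : ∀ a : ι → G, ‖ρ (walk (Sum.elim a c) ^ k) v‖ ^ 2 = ∑ m' ∈ box ι k, ∑ m ∈ box ι k,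
      pw k m' * (pw k m * (inner ℂ w (ρ (dl (sh m m' a)) w)).re) := fun a => by
    rw [walk_sum, mul_pow, rho_mul, walk_pow, ← inner_self_eq_norm_sq (𝕜 := ℂ)]
    change RCLike.re (inner ℂ (ρ _ w) (ρ _ w)) = _
    simp only [map_sum ρ, map_smul, _root_.sum_apply, smul_apply]
    rw [sum_inner, map_sum]
    refine sum_congr rfl fun m' _ => ?_
    rw [inner_sum, map_sum]
    refine sum_congr rfl fun m _ => ?_
    have e : ∑ j, m j • a j = ∑ j, m' j • a j + sh m m' a := by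
      simp only [sh, sub_smul, sum_sub_distrib, natCast_zsmul]
      abel
    rw [inner_smul_left, inner_smul_right, Complex.conj_ofReal, e, dl_add, rho_mul, inn]
    simp only [RCLike.re_to_complex, Complex.re_ofReal_mul]
  have key : ∀ m' m, ∫ a, (inner ℂ w (ρ (dl (sh m m' a)) w)).re ∂ν ≤
      (θ + if gd m m' = 0 ∨ L < gd m m' then 1 else 0) * ‖v‖ ^ 2 := fun m' m => by
    set u := ∫ a, ρ (dl (sh m m' a)) v ∂ν
    have nu : ‖u‖ ≤ ‖v‖ := by
      refine (norm_integral_le_of_norm_le_const (C := ‖v‖) (ae_of_all _ fun a => (iso _ _).le)).trans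
        ?_
      simp
    have e1 : ∫ a, (inner ℂ w (ρ (dl (sh m m' a)) w)).re ∂ν =
        (inner ℂ w (ρ (walk c ^ k) u)).re := by
      rw [← (ρ (walk c ^ k)).integral_comp_comm (ig m m' v)]
      simp only [← rho_comm (dl _) (walk c ^ k)]
      rw [← integral_inner (ig m m' w)]
      exact integral_re (𝕜 := ℂ) ((ig m m' w).const_inner w)
    have e2 : (inner ℂ w (ρ (walk c ^ k) u)).re ≤ ‖v‖ * ‖ρ (walk c ^ k) u‖ :=
      (Complex.re_le_norm _).trans ((norm_inner_le_norm _ _).trans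
        (mul_le_mul_of_nonneg_right (nw v) (norm_nonneg _)))
    rw [e1]
    refine e2.trans ?_
    have v0 := norm_nonneg v
    split_ifs with h
    · have := (nw u).trans nu
      nlinarith [mul_nonneg θ0 (sq_nonneg ‖v‖)]
    · push Not at h
      have hu : ∀ b : G, ρ (dl (gd m m' • b)) u = u := fun b => by
        obtain ⟨t, ht⟩ := gd_bezout m m'
        rw [← (ρ _).integral_comp_comm (ig m m' v)]
        refine Eq.trans ?_
          (integral_add_left_eq_self (μ := ν) (fun a => ρ (dl (sh m m' a)) v) fun j => t j • b)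
        refine integral_congr_ae (ae_of_all _ fun a => ?_)
        simp only [← rho_mul, ← dl_add, sh, Pi.add_apply, smul_add, sum_add_distrib, smul_smul]
        rw [← sum_smul, ← ht, natCast_zsmul]
      have lu : l u = 0 := by
        rw [← l.integral_comp_comm (ig m m' v)]
        simp [hl, h0]
      have := poincare_pow iso hc hl hz (Nat.one_le_iff_ne_zero.2 h.1) h.2 k hu lu
      have h5 : θ * ‖u‖ ≤ θ * ‖v‖ := mul_le_mul_of_nonneg_left nu θ0
      nlinarith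
  have ig2 : ∀ m' m, Integrable (fun a => (inner ℂ w (ρ (dl (sh m m' a)) w)).re) ν := fun m' m =>
    ((ig m m' w).const_inner (𝕜 := ℂ) w).re
  simp only [ex]
  rw [integral_finsetSum _ fun m' _ => integrable_finsetSum _ fun m _ =>
    ((ig2 m' m).const_mul _).const_mul _]
  calc _ ≤ ∑ m' ∈ box ι k, ∑ m ∈ box ι k, pw k m' * (pw k m *
        ((θ + if gd m m' = 0 ∨ L < gd m m' then 1 else 0) * ‖v‖ ^ 2)) := by
        refine sum_le_sum fun m' _ => ?_
        rw [integral_finsetSum _ fun m _ => ((ig2 m' m).const_mul _).const_mul _]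
        refine sum_le_sum fun m _ => ?_
        rw [integral_const_mul, integral_const_mul]
        exact mul_le_mul_of_nonneg_left (mul_le_mul_of_nonneg_left (key m' m) (pw_nonneg _ _))
          (pw_nonneg _ _)
    _ = (θ * (∑ m' ∈ box ι k, pw k m') * (∑ m ∈ box ι k, pw k m) +
          ∑ m' ∈ box ι k, ∑ m ∈ box ι k, pw k m' * (pw k m *
            if gd m m' = 0 ∨ L < gd m m' then 1 else 0)) * ‖v‖ ^ 2 := by
        rw [mul_assoc θ, sum_mul_sum, mul_sum, ← sum_add_distrib, sum_mul]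
        refine sum_congr rfl fun m' _ => ?_
        rw [mul_sum, ← sum_add_distrib, sum_mul]
        exact sum_congr rfl fun m _ => by ring
    _ ≤ _ := by
        rw [sum_pw, mul_one, mul_one]
        gcongr
        exact bad_le hk hB

end Hilbert

end Pool.Agent.Lib.MP_cd2b7c_an
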