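import Pool.Agent.Lib.MP_cd2b7c_an.Rep

/-! Automatic continuity for groups with a finitely generated dense subgroup. -/

open Finset MeasureTheory
open scoped ENNReal

namespace Pool.Agent.Lib.MP_cd2b7c_an

theorem eps_decay {r ρ : ℝ} (hr : 1 ≤ r) (hρ : 0 < ρ) : ∃ (J : ℕ) (C : ℝ), 0 ≤ C ∧ ∀ t : ℕ,
    (1 - 1 / (8 * (((2 * 4 ^ t : ℕ) : ℝ) * r) ^ 2)) ^ (64 ^ (t + 1)) +
      (((64 ^ (t + 1) : ℕ) : ℝ) + 1) * ((2⁻¹ : ℝ) ^ t) ^ J ≤ C * ρ ^ t := by
  obtain ⟨J, hJ⟩ := exists_pow_lt_of_lt_one (show 0 < ρ / 64 by positivity)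
    (show (2⁻¹ : ℝ) < 1 by norm_num)
  refine ⟨J, J.factorial * (r ^ 2 / 2) ^ J + 65, by positivity, fun t => ?_⟩
  push_cast
  have h4 : (1 : ℝ) ≤ 4 ^ t := one_le_pow₀ (by norm_num)
  have h64 : (1 : ℝ) ≤ 64 ^ t := one_le_pow₀ (by norm_num)
  set x : ℝ := 1 / (8 * (2 * 4 ^ t * r) ^ 2)
  have x1 : x ≤ 1 := by
    have : (1 : ℝ) ≤ 2 * 4 ^ t * r := by nlinarith
    rw [div_le_one (by positivity)]; nlinarith
  have e1 : ((64 ^ (t + 1) : ℕ) : ℝ) * x = 2 / r ^ 2 * 4 ^ t := by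
    push_cast
    rw [pow_succ, show (64 : ℝ) ^ t = (4 ^ t) ^ 3 by rw [← pow_mul, mul_comm, pow_mul]; norm_num]
    simp only [x]
    field_simp
    ring
  have h1 : (1 - x) ^ (64 ^ (t + 1)) ≤ J.factorial * (r ^ 2 / 2) ^ J * ρ ^ t := by
    have y0 : (0 : ℝ) < 2 / r ^ 2 * 4 ^ t := by positivity
    calc _ ≤ Real.exp (-x) ^ (64 ^ (t + 1)) :=
          pow_le_pow_left₀ (by linarith) (by linarith [Real.add_one_le_exp (-x)]) _
      _ = (Real.exp (2 / r ^ 2 * 4 ^ t))⁻¹ := by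
          rw [← Real.exp_nat_mul, mul_neg, e1, Real.exp_neg]
      _ ≤ ((2 / r ^ 2 * 4 ^ t) ^ J / J.factorial)⁻¹ :=
          inv_anti₀ (by positivity) (Real.pow_div_factorial_le_exp _ y0.le J)
      _ = J.factorial * (r ^ 2 / 2) ^ J * ((4⁻¹ : ℝ) ^ J) ^ t := by
          rw [mul_pow, ← pow_mul, ← pow_mul, mul_comm J t, div_pow, div_pow, inv_pow]
          field_simp
      _ ≤ _ := by
          gcongr
          have : (4⁻¹ : ℝ) ^ J ≤ 2⁻¹ ^ J := by gcongr; norm_num
          linarith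
  have h2 : ((64 : ℝ) ^ (t + 1) + 1) * ((2⁻¹ : ℝ) ^ t) ^ J ≤ 65 * ρ ^ t := by
    calc _ ≤ (65 * 64 ^ t) * ((2⁻¹ : ℝ) ^ J) ^ t := by
          rw [← pow_mul, ← pow_mul, mul_comm J t, pow_succ]
          gcongr
          linarith
      _ = 65 * (64 * 2⁻¹ ^ J) ^ t := by rw [mul_pow]; ring
      _ ≤ _ := by gcongr; linarith
  linarith

theorem wt_le_half (t m : ℕ) : wt (2 * 4 ^ t) m ≤ (2⁻¹ : ℝ) ^ t := by
  refine (abs_le_of_sq_le_sq' ((wt_sq_le _ m).trans ?_) (by positivity)).2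
  rw [← pow_mul, mul_comm t, pow_mul, inv_pow, inv_pow, one_div]
  push_cast
  refine inv_anti₀ (by positivity) ?_
  have : (0 : ℝ) < 4 ^ t := by positivity
  norm_num
  linarith

variable {G : Type*} [AddCommGroup G]

theorem norm_walk_pow_le {E : Type*} [NormedAddCommGroup E] [NormedSpace ℂ E]
    {ρ : AddMonoidAlgebra ℂ G →ₐ[ℂ] (E →L[ℂ] E)} (iso : ∀ a v, ‖ρ (dl a) v‖ = ‖v‖) {ι : Type}
    [Fintype ι] (b : ι → G) (v : E) {m n : ℕ} (h : m ≤ n) :
    ‖ρ (walk b ^ n) v‖ ≤ ‖ρ (walk b ^ m) v‖ := by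
  induction n, h using Nat.le_induction with
  | base => exact le_rfl
  | succ n _ ih => rw [pow_succ', rho_mul]; exact (norm_prod_le iso _ _ _).trans ih

variable [TopologicalSpace G] [IsTopologicalAddGroup G]
  [CompactSpace G] [SecondCountableTopology G] [MeasurableSpace G] [BorelSpace G]
  (μ : Measure G) [IsProbabilityMeasure μ] [μ.IsAddLeftInvariant] (q : ℝ≥0∞) [Fact (1 ≤ q)]

theorem exists_summable (h1 : 1 < q) (hq : q ≠ ∞) {κ : Type} [Fintype κ] [Nonempty κ]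
    {c : κ → G} (hc : Gen c) (f : Lp ℂ q μ) : ∃ (J : ℕ) (a : Fin J → G),
      Summable fun k => ‖rep μ q (walk (Sum.elim a c) ^ k) (cen μ q f)‖ := by
  classical
  set s := q.toReal
  have s1 : 1 < s := by
    have := (ENNReal.toReal_lt_toReal ENNReal.one_ne_top hq).2 h1
    simpa using this
  have s2 : 0 < s - 1 := by linarith
  set W : ℝ := 128 ^ s
  have W1 : 1 ≤ W := Real.one_le_rpow (by norm_num) (by linarith)
  set D : ℝ := (2 * W) ^ (s - 1)⁻¹
  have D1 : 1 ≤ D := Real.one_le_rpow (by linarith) (by positivity)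
  have D2 : D ^ (s - 1) = 2 * W := Real.rpow_inv_rpow (by positivity) s2.ne'
  have r1 : (1 : ℝ) ≤ Fintype.card κ := by exact_mod_cast Fintype.card_pos
  obtain ⟨J, C, C0, hC⟩ := eps_decay r1 (show 0 < 1 / (2 * W * D ^ 2) by positivity)
  refine ⟨J, ?_⟩
  set ν : Measure (Fin J → G) := Measure.pi fun _ => μ
  set g := (Lp.aestronglyMeasurable f).mk f
  have hg : Measurable g := (Lp.aestronglyMeasurable f).stronglyMeasurable_mk.measurable
  have fg : f =ᵐ[μ] g := (Lp.aestronglyMeasurable f).ae_eq_mk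
  have ig : Integrable g μ := ((Lp.memLp f).integrable h1.le).congr fg
  set K : ℝ := 64 * C * 4 ^ s + 8 * s / (s - 1)
  have K0 : 0 ≤ K := by positivity
  let φ : ℕ → (Fin J → G) → ℝ≥0∞ := fun t a => ENNReal.ofReal (W ^ t) *
    ENNReal.ofReal (‖rep μ q (walk (Sum.elim a c) ^ 64 ^ (t + 1)) (cen μ q f)‖ ^ s)
  have mφ : ∀ t, Measurable (φ t) := fun t =>
    ((walk_cont μ q hq c _ _).norm.measurable.pow_const s).ennreal_ofReal.const_mul _
  have iφ : ∀ t, ∫⁻ a, φ t a ∂ν ≤ ENNReal.ofReal (K * 2⁻¹ ^ t) * ENNReal.ofReal (‖f‖ ^ s) := by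
    intro t
    have L1 : 1 ≤ 2 * 4 ^ t := Nat.succ_le_of_lt (by positivity)
    have hk : 2 * 4 ^ t ≤ 64 ^ (t + 1) := by
      have : 4 ^ t ≤ 64 ^ t := Nat.pow_le_pow_left (by norm_num) t
      rw [pow_succ]; omega
    have h2 := Tav_two μ hc (Fin J) L1 hk (wt_le_half t) (by simpa using hC t) (by positivity)
    have h3 := Tav_Lq (shift_meas c) (pw_nonneg _) (sum_pw _ _) ENNReal.ofReal_ne_top h2
      (one_le_pow₀ D1 (n := t)) s1 hg ig
    rw [lintegral_prod _ ((Tav_meas (shift_meas c) hg).norm.pow_const s).ennreal_ofReal.aemeasurable,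
      lint_norm μ q hq fg] at h3
    simp only [s, fun a => lint_norm μ q hq
      (walk_ae μ q (fun a : Fin J → G => Sum.elim a c) (64 ^ (t + 1)) fg a)] at h3
    rw [lintegral_const_mul' _ _ ENNReal.ofReal_ne_top]
    refine (mul_le_mul_right h3 _).trans (le_of_eq ?_)
    rw [← mul_assoc]
    congr 1
    rw [← ENNReal.ofReal_mul (by positivity), ← ENNReal.ofReal_mul (by positivity),
      ← ENNReal.ofReal_add (by positivity) (by positivity), ← ENNReal.ofReal_mul (by positivity)]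
    congr 1
    have e1 : (D ^ t) ^ (s - 1) = (2 * W) ^ t := by
      rw [← D2, ← Real.rpow_natCast, ← Real.rpow_mul (by linarith), mul_comm,
        Real.rpow_mul (by linarith), Real.rpow_natCast]
    change W ^ t * (_ * _ * 4 ^ s + 8 * s / (s - 1) / (D ^ t) ^ (s - 1)) = _
    rw [e1]
    simp only [K, inv_pow, mul_pow, ← pow_mul, mul_comm 2 t]
    field_simp
    ring
  have fin : ∫⁻ a, ∑' t, φ t a ∂ν ≠ ∞ := by
    rw [lintegral_tsum fun t => (mφ t).aemeasurable]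
    refine ne_top_of_le_ne_top ?_ (ENNReal.tsum_le_tsum iφ)
    rw [ENNReal.tsum_mul_right]
    exact ENNReal.mul_ne_top ((summable_geometric_of_lt_one (by norm_num)
      (by norm_num)).mul_left K).tsum_ofReal_ne_top ENNReal.ofReal_ne_top
  obtain ⟨a, ha⟩ := (ae_lt_top (Measurable.tsum mφ) fin).exists
  refine ⟨a, ?_⟩
  set S := (∑' t, φ t a).toReal
  set F : ℕ → ℝ := fun k => ‖rep μ q (walk (Sum.elim a c) ^ k) (cen μ q f)‖
  have F0 : ∀ k, 0 ≤ F k := fun k => norm_nonneg _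
  have hS : ∀ t, 128 ^ t * F (64 ^ (t + 1)) ≤ max 1 S := fun t => by
    have h4 : φ t a ≤ ∑' t, φ t a := ENNReal.le_tsum t
    have h5 := ENNReal.toReal_mono ha.ne h4
    simp only [φ] at h5
    rw [← ENNReal.ofReal_mul (by positivity), ENNReal.toReal_ofReal (by positivity)] at h5
    have e : W ^ t * F (64 ^ (t + 1)) ^ s = (128 ^ t * F (64 ^ (t + 1))) ^ s := by
      rw [Real.mul_rpow (by positivity) (F0 _), ← Real.rpow_natCast W, ← Real.rpow_mul (by norm_num),
        mul_comm s, Real.rpow_mul (by norm_num), Real.rpow_natCast]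
    rcases le_total (128 ^ t * F (64 ^ (t + 1))) 1 with h | h
    · exact h.trans (le_max_left _ _)
    · exact ((Real.self_le_rpow_of_one_le h s1.le).trans (e ▸ h5)).trans (le_max_right _ _)
  refine (summable_schlomilch_iff_of_nonneg (C := 64) (u := fun t => 64 ^ (t + 1)) F0
    (fun m n _ h => norm_walk_pow_le (rep_iso μ q) _ _ h) (fun n => by positivity)
    (fun m n h => Nat.pow_lt_pow_right (by norm_num) (by omega)) (by norm_num) fun n => ?_).1 ?_
  · simp only [pow_succ, smul_eq_mul]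
    omega
  · refine Summable.of_nonneg_of_le (fun t => mul_nonneg ?_ (F0 _)) (fun t => ?_)
      ((summable_geometric_of_lt_one (r := 2⁻¹) (by norm_num) (by norm_num)).mul_left
        (4032 * max 1 S))
    · push_cast
      rw [pow_succ _ (t + 1)]
      have : (0 : ℝ) < 64 ^ (t + 1) := by positivity
      linarith
    · push_cast
      have e : ((64 : ℝ) ^ (t + 1 + 1) - 64 ^ (t + 1)) * F (64 ^ (t + 1)) =
          4032 * (128 ^ t * F (64 ^ (t + 1))) * 2⁻¹ ^ t := by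
        rw [show (128 : ℝ) ^ t = 64 ^ t * 2 ^ t by rw [← mul_pow]; norm_num, inv_pow]
        field_simp
        ring
      rw [e]
      gcongr
      exact hS t

theorem inv_eq_mean (h1 : 1 < q) (hq : q ≠ ∞) {κ : Type} [Fintype κ] [Nonempty κ]
    {c : κ → G} (hc : Gen c) (φ : Lp ℂ q μ →ₗ[ℂ] ℂ) (hφ : ∀ a f, φ (tr μ q a f) = φ f)
    (f : Lp ℂ q μ) : φ f = mean μ q f * φ (Lp.const q μ 1) := by
  obtain ⟨J, a, hs⟩ := exists_summable μ q h1 hq hc f
  have hs' := hs.of_norm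
  have e1 := hs'.tsum_eq_zero_add
  simp only [pow_succ', rho_mul] at e1
  rw [← (rep μ q (walk (Sum.elim a c))).map_tsum hs'] at e1
  have e2 := congrArg φ e1
  rw [map_add, fun_walk φ (fun a v => by rw [rep_dl, hφ]), right_eq_add, pow_zero, map_one,
    one_apply_eq_self, cen, map_sub, sub_eq_zero] at e2
  rw [e2, ← smul_eq_mul, ← map_smul]
  congr 1
  simpa using (Lp.constₗ q μ ℂ).map_smul (mean μ q f) (1 : ℂ)

theorem gen_of_dense [T2Space G] {κ : Type} [Fintype κ] {c : κ → G}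
    (h : Dense (AddSubgroup.closure (Set.range c) : Set G)) : Gen c := by
  classical
  intro d hd b
  set K : Set G := ⋃ n ∈ box κ d, Set.range fun b' : G => d • b' + ∑ i, n i • c i
  have cK : IsClosed K := isClosed_biUnion_finset fun n _ =>
    (isCompact_range (by fun_prop)).isClosed
  have sK : (AddSubgroup.closure (Set.range c) : Set G) ⊆ K := fun x hx => by
    obtain ⟨z, rfl⟩ := AddSubgroup.mem_closure_range_iff_of_fintype.1 hx
    have d0 : (0 : ℤ) < d := by exact_mod_cast hd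
    refine Set.mem_biUnion (x := fun i => (z i % d).toNat)
      (Fintype.mem_piFinset.2 fun i => mem_range.2 ?_) ⟨∑ i, (z i / d) • c i, ?_⟩
    · have := Int.emod_lt_of_pos (z i) d0
      omega
    · simp only [smul_sum, ← sum_add_distrib]
      refine sum_congr rfl fun i _ => ?_
      rw [← natCast_zsmul, ← natCast_zsmul, smul_smul, ← add_smul,
        Int.toNat_of_nonneg (Int.emod_nonneg _ d0.ne'), Int.mul_ediv_add_emod]
  have hb : b ∈ K := closure_minimal sK cK (h b)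
  obtain ⟨n, hn, b', e⟩ := Set.mem_iUnion₂.1 hb
  exact ⟨b', n, fun i => Nat.le_of_lt_succ (mem_range.1 (Fintype.mem_piFinset.1 hn i)), e.symm⟩

end Pool.Agent.Lib.MP_cd2b7c_an
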