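import Mathlib

/-! A three-piece interpolation bound for random averages of translates. -/

open Finset MeasureTheory Set
open scoped ENNReal

namespace Pool.Agent.Lib.MP_cd2b7c_an

theorem marc {X Y : Type*} [MeasurableSpace X] [MeasurableSpace Y] {μ : Measure X} {ν : Measure Y}
    {f : X → ℝ} {F : Y → ℝ} (f0 : ∀ x, 0 ≤ f x) (hf : Measurable f) (F0 : ∀ y, 0 ≤ F y)
    (hF : Measurable F) {q c : ℝ} (hq : 1 < q) (hc : 0 < c) {A : ℝ≥0∞} (hA : A ≠ ∞)
    (h : ∀ t, 0 < t → ν {y | t < F y} ≤ A * μ {x | t < 4 * f x} +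
      ENNReal.ofReal (8 / t) * ∫⁻ x in {x | t < f x / c}, ENNReal.ofReal (f x) ∂μ) :
    ∫⁻ y, ENNReal.ofReal (F y ^ q) ∂ν ≤
      (A * ENNReal.ofReal (4 ^ q) + ENNReal.ofReal (8 * q / (q - 1) / c ^ (q - 1))) *
        ∫⁻ x, ENNReal.ofReal (f x ^ q) ∂μ := by
  have q0 : 0 < q := by linarith
  have q1 : 0 < q - 1 := by linarith
  set μ' := μ.withDensity fun x => ENNReal.ofReal (f x)
  have e1 := lintegral_rpow_eq_lintegral_meas_lt_mul μ (f := fun x => 4 * f x)
    (ae_of_all _ fun x => mul_nonneg (by norm_num) (f0 x)) (hf.const_mul 4).aemeasurable q0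
  have e2 := lintegral_rpow_eq_lintegral_meas_lt_mul μ' (f := fun x => f x / c)
    (ae_of_all _ fun x => div_nonneg (f0 x) hc.le) (hf.div_const c).aemeasurable q1
  have m1 : Measurable fun t : ℝ => μ {x | t < 4 * f x} * ENNReal.ofReal (t ^ (q - 1)) :=
    Measurable.mul (f := fun t : ℝ => μ {x | t < 4 * f x})
      (Antitone.measurable fun s t hst => measure_mono fun x hx => lt_of_le_of_lt hst hx)
      (measurable_id.pow_const (q - 1)).ennreal_ofReal
  have e3 : ∫⁻ x, ENNReal.ofReal ((4 * f x) ^ q) ∂μ =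
      ENNReal.ofReal (4 ^ q) * ∫⁻ x, ENNReal.ofReal (f x ^ q) ∂μ := by
    rw [← lintegral_const_mul' _ _ ENNReal.ofReal_ne_top]
    refine lintegral_congr fun x => ?_
    rw [Real.mul_rpow (by norm_num) (f0 x), ENNReal.ofReal_mul (by positivity)]
  have e4 : ∫⁻ x, ENNReal.ofReal ((f x / c) ^ (q - 1)) ∂μ' =
      ENNReal.ofReal (1 / c ^ (q - 1)) * ∫⁻ x, ENNReal.ofReal (f x ^ q) ∂μ := by
    rw [lintegral_withDensity_eq_lintegral_mul _ hf.ennreal_ofReal
      ((hf.div_const c).pow_const _).ennreal_ofReal,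
      ← lintegral_const_mul' _ _ ENNReal.ofReal_ne_top]
    refine lintegral_congr fun x => ?_
    rw [Pi.mul_apply, ← ENNReal.ofReal_mul (f0 x), ← ENNReal.ofReal_mul (by positivity),
      Real.div_rpow (f0 x) hc.le]
    congr 1
    have : f x ^ q = f x * f x ^ (q - 1) := by
      rw [← Real.rpow_one_add' (f0 x) (by linarith)]; ring_nf
    rw [this]; ring
  rw [lintegral_rpow_eq_lintegral_meas_lt_mul ν (ae_of_all _ F0) hF.aemeasurable q0]
  calc _ ≤ ENNReal.ofReal q * ∫⁻ t in Ioi 0,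
        (A * (μ {x | t < 4 * f x} * ENNReal.ofReal (t ^ (q - 1))) +
          8 * (μ' {x | t < f x / c} * ENNReal.ofReal (t ^ (q - 1 - 1)))) := by
        refine mul_le_mul_right (setLIntegral_mono' measurableSet_Ioi fun t ht => ?_) _
        have t0 : 0 < t := ht
        refine (mul_le_mul_left (h t t0) _).trans (le_of_eq ?_)
        rw [add_mul, mul_assoc, withDensity_apply _ (measurableSet_lt measurable_const
          (hf.div_const c))]
        congr 1
        have : ENNReal.ofReal (8 / t) * ENNReal.ofReal (t ^ (q - 1)) =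
            8 * ENNReal.ofReal (t ^ (q - 1 - 1)) := by
          rw [← ENNReal.ofReal_mul (by positivity), ← ENNReal.ofReal_ofNat 8,
            ← ENNReal.ofReal_mul (by norm_num), Real.rpow_sub_one t0.ne' (q - 1)]
          congr 1
          ring
        rw [mul_right_comm, this]
        ring
    _ = A * (ENNReal.ofReal q * ∫⁻ t in Ioi 0, μ {x | t < 4 * f x} * ENNReal.ofReal (t ^ (q - 1))) +
          ENNReal.ofReal (8 * q / (q - 1)) * (ENNReal.ofReal (q - 1) *
            ∫⁻ t in Ioi 0, μ' {x | t < f x / c} * ENNReal.ofReal (t ^ (q - 1 - 1))) := by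
        rw [lintegral_add_left (m1.const_mul A), lintegral_const_mul' _ _ hA,
          lintegral_const_mul' _ _ (by norm_num), ← mul_assoc (ENNReal.ofReal (8 * q / (q - 1))),
          ← ENNReal.ofReal_mul (by positivity), div_mul_cancel₀ _ q1.ne',
          ENNReal.ofReal_mul (by norm_num), ENNReal.ofReal_ofNat]
        ring
    _ = _ := by
        rw [← e1, ← e2, e3, e4, add_mul, mul_assoc, ← mul_assoc (ENNReal.ofReal (8 * q / (q - 1))),
          ← ENNReal.ofReal_mul (by positivity), mul_one_div]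

variable {G : Type*} [AddCommGroup G] [MeasurableSpace G] [MeasurableAdd₂ G]
  {μ : Measure G} [IsProbabilityMeasure μ] [μ.IsAddLeftInvariant]
  {A : Type*} [MeasurableSpace A] {ν : Measure A} [IsProbabilityMeasure ν]
  {β : Type*} {I : Finset β} {p : β → ℝ} {σ : β → A → G}

/-- Average of translates minus the mean. -/
noncomputable def Tav (μ : Measure G) (I : Finset β) (p : β → ℝ) (σ : β → A → G) (g : G → ℂ)
    (z : A × G) : ℂ := ∑ i ∈ I, (p i : ℂ) * g (σ i z.1 + z.2) - ∫ x, g x ∂μ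

theorem Tav_meas (hσ : ∀ i, Measurable (σ i)) {g : G → ℂ} (hg : Measurable g) :
    Measurable (Tav μ I p σ g) :=
  (Finset.measurable_sum _ fun i _ =>
    (hg.comp (((hσ i).comp measurable_fst).add measurable_snd)).const_mul _).sub_const _

theorem Tav_add {g h : G → ℂ} (hg : Integrable g μ) (hh : Integrable h μ) (z : A × G) :
    Tav μ I p σ (fun x => g x + h x) z = Tav μ I p σ g z + Tav μ I p σ h z := by
  unfold Tav
  rw [integral_add hg hh]
  simp only [mul_add, sum_add_distrib]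
  ring

theorem Tav_sup (p0 : ∀ i, 0 ≤ p i) (p1 : ∑ i ∈ I, p i = 1) {g : G → ℂ} {M : ℝ}
    (hM : ∀ x, ‖g x‖ ≤ M) (z : A × G) : ‖Tav μ I p σ g z‖ ≤ 2 * M := by
  have h1 : ‖∑ i ∈ I, (p i : ℂ) * g (σ i z.1 + z.2)‖ ≤ M := by
    refine (norm_sum_le _ _).trans ?_
    calc _ ≤ ∑ i ∈ I, p i * M := sum_le_sum fun i _ => by
          rw [norm_mul, Complex.norm_real, Real.norm_of_nonneg (p0 i)]
          exact mul_le_mul_of_nonneg_left (hM _) (p0 i)
      _ = M := by rw [← sum_mul, p1, one_mul]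
  have h2 : ‖∫ x, g x ∂μ‖ ≤ M := by
    simpa using norm_integral_le_of_norm_le_const (μ := μ) (ae_of_all _ hM)
  exact (norm_sub_le _ _).trans (by linarith)

theorem Tav_one (hσ : ∀ i, Measurable (σ i)) (p0 : ∀ i, 0 ≤ p i) (p1 : ∑ i ∈ I, p i = 1)
    {g : G → ℂ} (hg : Measurable g) :
    ∫⁻ z, ‖Tav μ I p σ g z‖ₑ ∂(ν.prod μ) ≤ 2 * ∫⁻ x, ‖g x‖ₑ ∂μ := by
  have mi : ∀ i, Measurable fun z : A × G => ‖g (σ i z.1 + z.2)‖ₑ := fun i =>
    (hg.comp (((hσ i).comp measurable_fst).add measurable_snd)).enorm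
  have e : ∀ i, ∫⁻ z, ‖g (σ i z.1 + z.2)‖ₑ ∂(ν.prod μ) = ∫⁻ x, ‖g x‖ₑ ∂μ := fun i => by
    rw [lintegral_prod _ (mi i).aemeasurable]
    simp only [fun a => lintegral_add_left_eq_self (μ := μ) (fun x => ‖g x‖ₑ) (σ i a)]
    simp
  calc _ ≤ ∫⁻ z, (∑ i ∈ I, ENNReal.ofReal (p i) * ‖g (σ i z.1 + z.2)‖ₑ + ∫⁻ x, ‖g x‖ₑ ∂μ)
        ∂(ν.prod μ) := by
        refine lintegral_mono fun z => (enorm_sub_le).trans
          (add_le_add ((enorm_sum_le _ _).trans (le_of_eq ?_)) (enorm_integral_le_lintegral_enorm _))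
        refine sum_congr rfl fun i _ => ?_
        rw [enorm_mul, ← ofReal_norm (p i : ℂ), Complex.norm_real, Real.norm_of_nonneg (p0 i)]
    _ = _ := by
        rw [lintegral_add_right _ measurable_const,
          lintegral_finsetSum _ fun i _ => (mi i).const_mul _]
        simp only [fun i => lintegral_const_mul (μ := ν.prod μ) (ENNReal.ofReal (p i)) (mi i), e]
        rw [← sum_mul, ← ENNReal.ofReal_sum_of_nonneg fun i _ => p0 i, p1]
        simp [two_mul]

theorem Tav_dist (hσ : ∀ i, Measurable (σ i)) (p0 : ∀ i, 0 ≤ p i) (p1 : ∑ i ∈ I, p i = 1)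
    {ε : ℝ≥0∞} (h2 : ∀ g : G → ℂ, Measurable g → (∃ M, ∀ x, ‖g x‖ ≤ M) →
      ∫⁻ z, ‖Tav μ I p σ g z‖ₑ ^ 2 ∂(ν.prod μ) ≤ ε * ∫⁻ x, ‖g x‖ₑ ^ 2 ∂μ)
    {c : ℝ} (hc : 1 ≤ c) {g : G → ℂ} (hg : Measurable g) (ig : Integrable g μ) (t : ℝ)
    (t0 : 0 < t) :
    (ν.prod μ) {z | t < ‖Tav μ I p σ g z‖} ≤
      ε * ENNReal.ofReal (16 * c ^ 2) * μ {x | t < 4 * ‖g x‖} +
      ENNReal.ofReal (8 / t) * ∫⁻ x in {x | t < ‖g x‖ / c}, ENNReal.ofReal ‖g x‖ ∂μ := by
  have c0 : 0 < c := by linarith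
  set S := {x | t < 4 * ‖g x‖}
  set U := {x | t < ‖g x‖ / c}
  have mS : MeasurableSet S := measurableSet_lt measurable_const (hg.norm.const_mul 4)
  have mU : MeasurableSet U := measurableSet_lt measurable_const (hg.norm.div_const c)
  have US : U ⊆ S := fun x hx => by
    have h1 : t < ‖g x‖ / c := hx
    have h3 : ‖g x‖ / c ≤ ‖g x‖ := div_le_self (norm_nonneg _) hc
    change t < 4 * ‖g x‖
    linarith [norm_nonneg (g x)]
  set lo := Sᶜ.indicator g
  set md := (S \ U).indicator g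
  set hi := U.indicator g
  have e : g = fun x => (lo x + md x) + hi x := by
    funext x
    by_cases h1 : x ∈ U
    · simp [lo, md, hi, h1, US h1]
    · by_cases h3 : x ∈ S <;> simp [lo, md, hi, h1, h3]
  have blo : ∀ x, ‖lo x‖ ≤ t / 4 := fun x => by
    by_cases h : x ∈ S
    · simp only [lo, indicator_of_notMem (notMem_compl_iff.2 h), norm_zero]; positivity
    · simp only [lo, indicator_of_mem (mem_compl h)]
      have : ¬ t < 4 * ‖g x‖ := h
      linarith
  have bmd : ∀ x, ‖md x‖ ≤ c * t := fun x => by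
    by_cases h : x ∈ S \ U
    · simp only [md, indicator_of_mem h]
      have h1 : ¬ t < ‖g x‖ / c := h.2
      rw [not_lt, div_le_iff₀ c0] at h1
      linarith
    · simp only [md, indicator_of_notMem h, norm_zero]; positivity
  have mmd : Measurable md := hg.indicator (mS.diff mU)
  have mhi : Measurable hi := hg.indicator mU
  have sub : {z | t < ‖Tav μ I p σ g z‖} ⊆
      {z | ENNReal.ofReal (t / 4) ^ 2 ≤ ‖Tav μ I p σ md z‖ₑ ^ 2} ∪
        {z | ENNReal.ofReal (t / 4) ≤ ‖Tav μ I p σ hi z‖ₑ} := fun z hz => by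
    have h1 : t < ‖Tav μ I p σ g z‖ := hz
    have i1 : Integrable lo μ := ig.indicator mS.compl
    have i2 : Integrable md μ := ig.indicator (mS.diff mU)
    have i3 : Integrable hi μ := ig.indicator mU
    rw [e, Tav_add (g := fun x => lo x + md x) (i1.add i2) i3, Tav_add i1 i2] at h1
    have h3 := Tav_sup (μ := μ) (σ := σ) p0 p1 blo z
    have h4 := norm_add₃_le (a := Tav μ I p σ lo z) (b := Tav μ I p σ md z) (c := Tav μ I p σ hi z)
    by_cases h5 : t / 4 ≤ ‖Tav μ I p σ md z‖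
    · left
      rw [mem_ofPred_eq, ← ofReal_norm]
      gcongr
    · right
      rw [mem_ofPred_eq, ← ofReal_norm]
      exact ENNReal.ofReal_le_ofReal (by linarith)
  have n0 : ENNReal.ofReal (t / 4) ≠ 0 := by simpa using t0
  refine (measure_mono sub).trans ((measure_union_le _ _).trans (add_le_add ?_ ?_))
  · refine (meas_ge_le_lintegral_div ((Tav_meas hσ mmd).enorm.pow_const 2).aemeasurable
      (pow_ne_zero _ n0) (ENNReal.pow_ne_top ENNReal.ofReal_ne_top)).trans ?_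
    rw [ENNReal.div_le_iff (pow_ne_zero _ n0) (ENNReal.pow_ne_top ENNReal.ofReal_ne_top)]
    refine (h2 md mmd ⟨_, bmd⟩).trans ?_
    have h6 : ∫⁻ x, ‖md x‖ₑ ^ 2 ∂μ ≤ ENNReal.ofReal (c * t) ^ 2 * μ S := by
      rw [← lintegral_indicator_const mS]
      refine lintegral_mono fun x => ?_
      by_cases h : x ∈ S
      · rw [indicator_of_mem h, ← ofReal_norm]
        gcongr
        exact bmd x
      · simp [md, h]
    refine (mul_le_mul_right h6 _).trans (le_of_eq ?_)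
    have h7 : ENNReal.ofReal (c * t) ^ 2 = ENNReal.ofReal (16 * c ^ 2) * ENNReal.ofReal (t / 4) ^ 2 := by
      rw [← ENNReal.ofReal_pow (by positivity), ← ENNReal.ofReal_pow (by positivity),
        ← ENNReal.ofReal_mul (by positivity)]
      congr 1
      ring
    rw [h7]
    ring
  · refine (meas_ge_le_lintegral_div (Tav_meas hσ mhi).enorm.aemeasurable n0
      ENNReal.ofReal_ne_top).trans ?_
    rw [ENNReal.div_le_iff n0 ENNReal.ofReal_ne_top]
    refine (Tav_one hσ p0 p1 mhi).trans (le_of_eq ?_)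
    rw [mul_right_comm, ← ENNReal.ofReal_mul (by positivity), show 8 / t * (t / 4) = 2 by field_simp; ring,
      ENNReal.ofReal_ofNat, ← lintegral_indicator mU]
    congr 1
    refine lintegral_congr fun x => ?_
    by_cases h : x ∈ U <;> simp [hi, h]

theorem Tav_Lq (hσ : ∀ i, Measurable (σ i)) (p0 : ∀ i, 0 ≤ p i) (p1 : ∑ i ∈ I, p i = 1)
    {ε : ℝ≥0∞} (hε : ε ≠ ∞) (h2 : ∀ g : G → ℂ, Measurable g → (∃ M, ∀ x, ‖g x‖ ≤ M) →
      ∫⁻ z, ‖Tav μ I p σ g z‖ₑ ^ 2 ∂(ν.prod μ) ≤ ε * ∫⁻ x, ‖g x‖ₑ ^ 2 ∂μ)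
    {c q : ℝ} (hc : 1 ≤ c) (hq : 1 < q) {g : G → ℂ} (hg : Measurable g) (ig : Integrable g μ) :
    ∫⁻ z, ENNReal.ofReal (‖Tav μ I p σ g z‖ ^ q) ∂(ν.prod μ) ≤
      (ε * ENNReal.ofReal (16 * c ^ 2) * ENNReal.ofReal (4 ^ q) +
        ENNReal.ofReal (8 * q / (q - 1) / c ^ (q - 1))) * ∫⁻ x, ENNReal.ofReal (‖g x‖ ^ q) ∂μ :=
  marc (fun _ => norm_nonneg _) hg.norm (fun _ => norm_nonneg _) (Tav_meas hσ hg).norm hq
    (by linarith) (ENNReal.mul_ne_top hε ENNReal.ofReal_ne_top) (Tav_dist hσ p0 p1 h2 hc hg ig)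

end Pool.Agent.Lib.MP_cd2b7c_an
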