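import Pool.Agent.Lib.MP_cd2b7c_an.Hilb
import Pool.Agent.Lib.MP_cd2b7c_an.Marc

/-! The regular representation on the Lebesgue spaces of a compact abelian group. -/

open Finset MeasureTheory
open scoped ENNReal

namespace Pool.Agent.Lib.MP_cd2b7c_an

variable {G : Type*} [AddCommGroup G] [TopologicalSpace G] [IsTopologicalAddGroup G]
  [CompactSpace G] [SecondCountableTopology G] [MeasurableSpace G] [BorelSpace G]
  (μ : Measure G) [IsProbabilityMeasure μ] [μ.IsAddLeftInvariant] (p : ℝ≥0∞) [Fact (1 ≤ p)]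

/-- Translation. -/
noncomputable def tr (a : G) : Lp ℂ p μ →L[ℂ] Lp ℂ p μ :=
  (Lp.compMeasurePreservingₗᵢ ℂ (fun x => a + x)
    (measurePreserving_add_left μ a)).toContinuousLinearMap

theorem tr_ae (a : G) (f : Lp ℂ p μ) : tr μ p a f =ᵐ[μ] fun x => f (a + x) :=
  Lp.coeFn_compMeasurePreserving f (measurePreserving_add_left μ a)

theorem tr_ae' (a : G) {f : Lp ℂ p μ} {g : G → ℂ} (h : f =ᵐ[μ] g) :
    tr μ p a f =ᵐ[μ] fun x => g (a + x) :=
  (tr_ae μ p a f).trans ((measurePreserving_add_left μ a).quasiMeasurePreserving.ae_eq_comp h)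

theorem norm_tr (a : G) (f : Lp ℂ p μ) : ‖tr μ p a f‖ = ‖f‖ :=
  Lp.norm_compMeasurePreserving f (measurePreserving_add_left μ a)

theorem tr_cont (hp : p ≠ ∞) (f : Lp ℂ p μ) : Continuous fun a => tr μ p a f :=
  Continuous.compMeasurePreservingLp (f := fun _ : G => f)
    (g := fun a => (ContinuousMap.mk (fun z : G × G => z.1 + z.2) continuous_add).curry a)
    continuous_const (ContinuousMap.continuous _) (fun a => measurePreserving_add_left μ a) hp

/-- The regular representation of the group algebra. -/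
noncomputable def rep : AddMonoidAlgebra ℂ G →ₐ[ℂ] (Lp ℂ p μ →L[ℂ] Lp ℂ p μ) :=
  AddMonoidAlgebra.lift ℂ _ G
    { toFun := fun a => tr μ p a.toAdd
      map_one' := by
        ext f
        simpa using tr_ae μ p 0 f
      map_mul' := fun a b => by
        ext f
        refine (tr_ae μ p _ f).trans ((tr_ae' μ p a.toAdd (tr_ae μ p b.toAdd f)).trans ?_).symm
        refine ae_of_all _ fun x => ?_
        simp only [toAdd_mul]
        congr 1
        abel }

theorem rep_dl (a : G) : rep μ p (dl a) = tr μ p a := by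
  simp [rep, dl]

theorem rep_iso (a : G) (f : Lp ℂ p μ) : ‖rep μ p (dl a) f‖ = ‖f‖ := by
  rw [rep_dl, norm_tr]

/-- The mean. -/
noncomputable def mean : Lp ℂ p μ →L[ℂ] ℂ :=
  LinearMap.mkContinuous
    { toFun := fun f => ∫ x, f x ∂μ
      map_add' := fun f g => by
        rw [integral_congr_ae (Lp.coeFn_add f g)]
        exact integral_add ((Lp.memLp f).integrable Fact.out) ((Lp.memLp g).integrable Fact.out)
      map_smul' := fun c f => by
        rw [integral_congr_ae (Lp.coeFn_smul c f)]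
        exact integral_smul c _ } 1 fun f => by
    rw [one_mul, Lp.norm_def]
    refine (norm_integral_le_lintegral_norm _).trans
      (ENNReal.toReal_mono (Lp.eLpNorm_ne_top f) ?_)
    simp only [ofReal_norm]
    rw [← eLpNorm_one_eq_lintegral_enorm]
    exact eLpNorm_le_eLpNorm_of_exponent_le Fact.out (Lp.aestronglyMeasurable f)

theorem mean_apply (f : Lp ℂ p μ) : mean μ p f = ∫ x, f x ∂μ := rfl

theorem norm_mean_le (f : Lp ℂ p μ) : ‖mean μ p f‖ ≤ ‖f‖ := by
  have h : ‖mean μ p‖ ≤ 1 := LinearMap.mkContinuous_norm_le _ zero_le_one _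
  exact ((mean μ p).le_opNorm f).trans (mul_le_of_le_one_left (norm_nonneg _) h)

theorem mean_rep (a : G) (f : Lp ℂ p μ) : mean μ p (rep μ p (dl a) f) = mean μ p f := by
  rw [rep_dl, mean_apply, integral_congr_ae (tr_ae μ p a f)]
  exact integral_add_left_eq_self (fun x => f x) a

theorem mean_const (c : ℂ) : mean μ p (Lp.const p μ c) = c := by
  rw [mean_apply, integral_congr_ae (Lp.coeFn_const p μ c)]
  simp [Function.const]

/-- The function minus its mean. -/
noncomputable def cen (f : Lp ℂ p μ) : Lp ℂ p μ := f - Lp.const p μ (mean μ p f)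

theorem mean_cen (f : Lp ℂ p μ) : mean μ p (cen μ p f) = 0 := by
  rw [cen, map_sub, mean_const, sub_self]

theorem norm_cen_le (f : Lp ℂ p μ) : ‖cen μ p f‖ ≤ 2 * ‖f‖ := by
  have h1 := Lp.norm_const_le p μ (mean μ p f)
  simp only [probReal_univ, Real.one_rpow, mul_one] at h1
  have h2 := norm_mean_le μ p f
  exact (norm_sub_le _ _).trans (by linarith)

theorem walk_apply {ι : Type} [Fintype ι] [DecidableEq ι] (b : ι → G) (k : ℕ) (f : Lp ℂ p μ) :
    rep μ p (walk b ^ k) f = ∑ m ∈ box ι k, (pw k m : ℂ) • tr μ p (∑ j, m j • b j) f := by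
  rw [walk_pow]
  simp only [map_sum, map_smul, _root_.sum_apply, smul_apply, rep_dl]

theorem walk_ae {ι : Type} [Fintype ι] [DecidableEq ι] {A : Type*} (b : A → ι → G) (k : ℕ)
    {f : Lp ℂ p μ} {g : G → ℂ} (h : f =ᵐ[μ] g) (a : A) :
    rep μ p (walk (b a) ^ k) (cen μ p f) =ᵐ[μ] fun x =>
      Tav μ (box ι k) (pw k) (fun m a => ∑ j, m j • b a j) g (a, x) := by
  have h1 : cen μ p f =ᵐ[μ] fun x => g x - ∫ y, g y ∂μ := by
    filter_upwards [Lp.coeFn_sub f (Lp.const p μ (mean μ p f)), h,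
      Lp.coeFn_const p μ (mean μ p f)] with x e1 e2 e3
    rw [cen, e1, Pi.sub_apply, e2, e3, mean_apply, integral_congr_ae h]
    rfl
  rw [walk_apply]
  have h2 : ∀ m : ι → ℕ, ((pw k m : ℂ) • tr μ p (∑ j, m j • b a j) (cen μ p f) : Lp ℂ p μ) =ᵐ[μ]
      fun x => (pw k m : ℂ) * (g (∑ j, m j • b a j + x) - ∫ y, g y ∂μ) := fun m => by
    filter_upwards [Lp.coeFn_smul (pw k m : ℂ) (tr μ p (∑ j, m j • b a j) (cen μ p f)),
      tr_ae' μ p (∑ j, m j • b a j) h1] with x e1 e2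
    rw [e1, Pi.smul_apply, e2, smul_eq_mul]
  filter_upwards [Lp.coeFn_fun_finsetSum (box ι k)
    fun m => (pw k m : ℂ) • tr μ p (∑ j, m j • b a j) (cen μ p f), ae_all_iff.2 h2] with x e1 e2
  rw [e1]
  simp only [e2, Tav, mul_sub, sum_sub_distrib]
  rw [← sum_mul, ← Complex.ofReal_sum, sum_pw]
  simp

theorem lint_norm (hp : p ≠ ∞) {f : Lp ℂ p μ} {g : G → ℂ} (h : f =ᵐ[μ] g) :
    ∫⁻ x, ENNReal.ofReal (‖g x‖ ^ p.toReal) ∂μ = ENNReal.ofReal (‖f‖ ^ p.toReal) := by
  have p0 : p ≠ 0 := (one_pos.trans_le Fact.out).ne'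
  have p1 : 0 < p.toReal := ENNReal.toReal_pos p0 hp
  rw [← ENNReal.ofReal_rpow_of_nonneg (norm_nonneg _) p1.le, ofReal_norm, Lp.enorm_def,
    eLpNorm_eq_lintegral_rpow_enorm_toReal p0 hp, ← ENNReal.rpow_mul, one_div_mul_cancel p1.ne',
    ENNReal.rpow_one]
  refine lintegral_congr_ae (h.mono fun x e => ?_)
  simp only [e]
  rw [← ENNReal.ofReal_rpow_of_nonneg (norm_nonneg _) p1.le, ofReal_norm]

theorem mean_zero_le (u : Lp ℂ 2 μ) (hu : mean μ 2 u = 0) (M : ℝ)
    (hM : ∀ b : G, ‖u - rep μ 2 (dl b) u‖ ≤ M) : ‖u‖ ≤ M := by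
  simp only [rep_dl] at hM
  have iu : Integrable (fun x => u x) μ := (Lp.memLp u).integrable one_le_two
  have ic : Integrable (fun x => (starRingEnd ℂ) (u x)) μ :=
    (RCLike.conjCLE (K := ℂ)).toContinuousLinearMap.integrable_comp iu
  have ip : Integrable (fun z : G × G => (starRingEnd ℂ) (u z.1) * u (z.1 + z.2)) (μ.prod μ) :=
    (measurePreserving_prod_add μ μ).integrable_comp_of_integrable (ic.mul_prod iu)
  have e1 : ∀ b, inner ℂ u (tr μ 2 b u) = ∫ x, (starRingEnd ℂ) (u x) * u (x + b) ∂μ := fun b => by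
    rw [L2.inner_def]
    refine integral_congr_ae ((tr_ae μ 2 b u).mono fun x e => ?_)
    simp only [e, add_comm b x, RCLike.inner_apply, mul_comm]
  have e2 : ∫ b, inner ℂ u (tr μ 2 b u) ∂μ = 0 := by
    simp only [e1]
    rw [← integral_integral_swap (f := fun x b => (starRingEnd ℂ) (u x) * u (x + b)) ip]
    simp only [integral_const_mul, fun x => integral_add_left_eq_self (μ := μ) (fun y => u y) x]
    rw [← mean_apply, hu]
    simp
  have i1 : Integrable (fun b => inner ℂ u (tr μ 2 b u)) μ :=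
    ((tr_cont μ 2 ENNReal.ofNat_ne_top u).integrable_of_hasCompactSupport
      (HasCompactSupport.of_compactSpace _)).const_inner u
  have e3 : ∫ b, inner ℂ u (u - tr μ 2 b u) ∂μ = inner ℂ u u := by
    simp only [inner_sub_right]
    rw [integral_sub (integrable_const _) i1, e2]
    simp
  have e4 : ‖inner ℂ u u‖ ≤ ‖u‖ * M := by
    rw [← e3]
    simpa using norm_integral_le_of_norm_le_const (μ := μ) (C := ‖u‖ * M)
      (f := fun b => inner ℂ u (u - tr μ 2 b u)) (ae_of_all _ fun b =>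
      (norm_inner_le_norm _ _).trans (mul_le_mul_of_nonneg_left (hM b) (norm_nonneg _)))
  have M0 : 0 ≤ M := (norm_nonneg _).trans (hM 0)
  rw [← inner_self_re_eq_norm, inner_self_eq_norm_sq] at e4
  rcases (norm_nonneg u).eq_or_lt with h | h
  · rw [← h]; exact M0
  · nlinarith

theorem shift_cont {ι κ : Type} [Fintype ι] [Fintype κ] (c : κ → G) (m : ι ⊕ κ → ℕ) :
    Continuous fun a : ι → G => ∑ j, m j • Sum.elim a c j := by
  refine continuous_finsetSum _ fun j _ => Continuous.fun_nsmul ?_ _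
  rcases j with j | j
  · exact continuous_apply j
  · exact continuous_const

theorem shift_meas {ι κ : Type} [Fintype ι] [Fintype κ] (c : κ → G) (m : ι ⊕ κ → ℕ) :
    Measurable fun a : ι → G => ∑ j, m j • Sum.elim a c j := (shift_cont c m).measurable

theorem walk_cont (hp : p ≠ ∞) {ι κ : Type} [Fintype ι] [Fintype κ] (c : κ → G) (k : ℕ)
    (f : Lp ℂ p μ) : Continuous fun a : ι → G => rep μ p (walk (Sum.elim a c) ^ k) f := by
  classical
  simp only [walk_apply]
  exact continuous_finsetSum _ fun m _ =>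
    ((tr_cont μ p hp f).comp (shift_cont c m)).const_smul (pw k m : ℂ)

theorem Tav_two {κ : Type} [Fintype κ] [Nonempty κ] [DecidableEq κ] {c : κ → G} (hc : Gen c)
    (ι : Type) [Fintype ι] [DecidableEq ι] {L k : ℕ} (L1 : 1 ≤ L) (hk : L ≤ k) {B : ℝ}
    (hB : ∀ m, wt L m ≤ B) {ε : ℝ} (hε : (1 - 1 / (8 * ((L : ℝ) * Fintype.card κ) ^ 2)) ^ k +
      (k + 1) * B ^ Fintype.card ι ≤ ε) (ε0 : 0 ≤ ε)
    (g : G → ℂ) (hg : Measurable g) (hb : ∃ M, ∀ x, ‖g x‖ ≤ M) :
    ∫⁻ z, ‖Tav μ (box (ι ⊕ κ) k) (pw k) (fun m a => ∑ j, m j • Sum.elim a c j) g z‖ₑ ^ 2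
      ∂((Measure.pi fun _ : ι => μ).prod μ) ≤ ENNReal.ofReal (4 * ε) * ∫⁻ x, ‖g x‖ₑ ^ 2 ∂μ := by
  obtain ⟨M, hM⟩ := hb
  have mg : MemLp g 2 μ := MemLp.of_bound hg.aestronglyMeasurable M (ae_of_all _ hM)
  have e0 : ∀ z : ℂ, ‖z‖ₑ ^ 2 = ENNReal.ofReal (‖z‖ ^ (2 : ℝ≥0∞).toReal) := fun z => by
    rw [← ofReal_norm, ← ENNReal.ofReal_pow (norm_nonneg _)]
    simp
  have h1 := mean_square (μ := μ) (rep_iso μ 2)
    (fun v => by simpa only [rep_dl] using tr_cont μ 2 ENNReal.ofNat_ne_top v) hc (mean_rep μ 2)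
    (mean_zero_le μ) ι L1 hk hB (mean_cen μ 2 (mg.toLp g))
  rw [lintegral_prod _ ((Tav_meas (shift_meas c) hg).enorm.pow_const 2).aemeasurable]
  simp only [e0]
  rw [lint_norm μ 2 ENNReal.ofNat_ne_top mg.coeFn_toLp]
  simp only [fun a => lint_norm μ 2 ENNReal.ofNat_ne_top
    (walk_ae μ 2 (fun a : ι → G => Sum.elim a c) k mg.coeFn_toLp a)]
  simp only [ENNReal.toReal_ofNat, Real.rpow_ofNat]
  have i1 : Integrable (fun a : ι → G => ‖rep μ 2 (walk (Sum.elim a c) ^ k)
      (cen μ 2 (mg.toLp g))‖ ^ 2) (Measure.pi fun _ : ι => μ) :=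
    ((walk_cont μ 2 ENNReal.ofNat_ne_top c k _).norm.pow 2).integrable_of_hasCompactSupport
      (HasCompactSupport.of_compactSpace _)
  rw [← ofReal_integral_eq_lintegral_ofReal i1 (ae_of_all _ fun a => by positivity),
    ← ENNReal.ofReal_mul (by positivity)]
  refine ENNReal.ofReal_le_ofReal (h1.trans ?_)
  have h2 := norm_cen_le μ 2 (mg.toLp g)
  calc _ ≤ ε * ‖cen μ 2 (mg.toLp g)‖ ^ 2 := mul_le_mul_of_nonneg_right hε (by positivity)
    _ ≤ ε * (2 * ‖mg.toLp g‖) ^ 2 := by gcongr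
    _ = _ := by ring

end Pool.Agent.Lib.MP_cd2b7c_an
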